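import Mathlib

/-!
Definitions for the magnetic Neumann eigenvalue with a localized field in the plane.
The plane is `ℝ × ℝ` with Lebesgue measure `volume`; disks are Euclidean disks (`disc`).
-/

open MeasureTheory Set
open scoped ENNReal ContDiff

namespace Pool.Agent.Lib.MP_d36e13_an

/-- First coordinate derivative of a real function on the plane. -/
noncomputable def d1 (f : ℝ × ℝ → ℝ) (p : ℝ × ℝ) : ℝ := fderiv ℝ f p (1, 0)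

/-- Second coordinate derivative of a real function on the plane. -/
noncomputable def d2 (f : ℝ × ℝ → ℝ) (p : ℝ × ℝ) : ℝ := fderiv ℝ f p (0, 1)

/-- The open Euclidean disk of radius `R` centred at the origin. -/
def disc (R : ℝ) : Set (ℝ × ℝ) := {p | p.1 ^ 2 + p.2 ^ 2 < R ^ 2}

/-- Test functions: smooth with compact support inside `Ω`. -/
def IsTest (Ω : Set (ℝ × ℝ)) (φ : ℝ × ℝ → ℝ) : Prop :=
  ContDiff ℝ ∞ φ ∧ HasCompactSupport φ ∧ tsupport φ ⊆ Ω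

/-- A bounded simply connected (hence nonempty and connected) open set with `C^1` boundary:
near each boundary point it is the sublevel set of a `C^1` function with nonzero differential. -/
structure IsC1Domain (Ω : Set (ℝ × ℝ)) : Prop where
  isOpen : IsOpen Ω
  bounded : Bornology.IsBounded Ω
  simplyConnected : IsSimplyConnected Ω
  boundary : ∀ p ∈ frontier Ω, ∃ (U : Set (ℝ × ℝ)) (F : ℝ × ℝ → ℝ), IsOpen U ∧ p ∈ U ∧
    ContDiffOn ℝ 1 F U ∧ F p = 0 ∧ fderiv ℝ F p ≠ 0 ∧ Ω ∩ U = {q | q ∈ U ∧ F q < 0}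

/-- `u ∈ H^1(Ω; ℂ)` with weak gradient `(g₁, g₂)`. -/
structure IsH1 (Ω : Set (ℝ × ℝ)) (u g₁ g₂ : ℝ × ℝ → ℂ) : Prop where
  memLp_u : MemLp u 2 (volume.restrict Ω)
  memLp_g₁ : MemLp g₁ 2 (volume.restrict Ω)
  memLp_g₂ : MemLp g₂ 2 (volume.restrict Ω)
  weak₁ : ∀ φ, IsTest Ω φ → ∫ p in Ω, u p * (d1 φ p : ℂ) = - ∫ p in Ω, g₁ p * (φ p : ℂ)
  weak₂ : ∀ φ, IsTest Ω φ → ∫ p in Ω, u p * (d2 φ p : ℂ) = - ∫ p in Ω, g₂ p * (φ p : ℂ)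

/-- `A = (A₁, A₂)` is an essentially bounded real vector potential on `Ω` whose distributional
curl `∂₁A₂ - ∂₂A₁` is `b` times the indicator of `D`, with `b = 2πΦ / |D|`. -/
structure IsPotential (Φ : ℝ) (Ω D : Set (ℝ × ℝ)) (A₁ A₂ : ℝ × ℝ → ℝ) : Prop where
  memLp₁ : MemLp A₁ ⊤ (volume.restrict Ω)
  memLp₂ : MemLp A₂ ⊤ (volume.restrict Ω)
  curl : ∀ φ, IsTest Ω φ → ∫ p in Ω, (A₁ p * d2 φ p - A₂ p * d1 φ p) =
    2 * Real.pi * Φ / (volume D).toReal * ∫ p in D, φ p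

/-- The bottom of the spectrum of the magnetic Neumann Laplacian `(-i∇ - A)²` on `Ω`:
the infimum of the Rayleigh quotient over nonzero `u ∈ H^1(Ω; ℂ)`. -/
noncomputable def lam (Ω : Set (ℝ × ℝ)) (A₁ A₂ : ℝ × ℝ → ℝ) : ℝ≥0∞ :=
  ⨅ (u : ℝ × ℝ → ℂ) (g₁ : ℝ × ℝ → ℂ) (g₂ : ℝ × ℝ → ℂ) (_ : IsH1 Ω u g₁ g₂)
    (_ : ∫⁻ p in Ω, ‖u p‖ₑ ^ 2 ≠ 0),
    (∫⁻ p in Ω, (‖-Complex.I * g₁ p - (A₁ p : ℂ) * u p‖ₑ ^ 2 +
      ‖-Complex.I * g₂ p - (A₂ p : ℂ) * u p‖ₑ ^ 2)) / ∫⁻ p in Ω, ‖u p‖ₑ ^ 2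

end Pool.Agent.Lib.MP_d36e13_an
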