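import Pool.Agent.Lib.MP_d36e13_an.Defs

-- part Pool.Agent.Lib.MP_d36e13_an.Calc
section

open MeasureTheory Set Filter Topology
open scoped ENNReal ContDiff

namespace Pool.Agent.Lib.MP_d36e13_an

/-- directional derivative -/
noncomputable def dd (v : ℝ × ℝ) (f : ℝ × ℝ → ℝ) (p : ℝ × ℝ) : ℝ := fderiv ℝ f p v

theorem d1_eq : d1 = dd (1, 0) := rfl
theorem d2_eq : d2 = dd (0, 1) := rfl

variable {v w : ℝ × ℝ} {f g : ℝ × ℝ → ℝ} {p : ℝ × ℝ}

theorem dd_mul (hf : DifferentiableAt ℝ f p) (hg : DifferentiableAt ℝ g p) :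
    dd v (fun x => f x * g x) p = dd v f p * g p + f p * dd v g p := by
  unfold dd
  rw [fderiv_fun_mul hf hg]
  simp only [add_apply, smul_apply, smul_eq_mul]
  ring

theorem dd_add (hf : DifferentiableAt ℝ f p) (hg : DifferentiableAt ℝ g p) :
    dd v (fun x => f x + g x) p = dd v f p + dd v g p := by
  unfold dd
  rw [fderiv_fun_add hf hg]
  simp

theorem dd_sub (hf : DifferentiableAt ℝ f p) (hg : DifferentiableAt ℝ g p) :
    dd v (fun x => f x - g x) p = dd v f p - dd v g p := by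
  unfold dd
  rw [fderiv_fun_sub hf hg]
  simp

theorem dd_of_hasFDerivAt {L : ℝ × ℝ →L[ℝ] ℝ} (h : HasFDerivAt f L p) : dd v f p = L v := by
  unfold dd; rw [h.fderiv]

theorem dd_comp {h : ℝ → ℝ} {h' : ℝ} (hh : HasDerivAt h h' (f p)) (hf : DifferentiableAt ℝ f p) :
    dd v (fun x => h (f x)) p = h' * dd v f p := by
  unfold dd
  have := hh.comp_hasFDerivAt p hf.hasFDerivAt
  have e : (fun x => h (f x)) = h ∘ f := rfl
  rw [e, this.fderiv]
  simp

theorem contDiff_dd {n : ℕ∞} (hf : ContDiff ℝ (n + 1 : ℕ∞) f) : ContDiff ℝ n (dd v f) := by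
  unfold dd
  have : ContDiff ℝ n (fderiv ℝ f) := hf.fderiv_right (by simp)
  exact this.clm_apply contDiff_const

theorem contDiff_dd_top (hf : ContDiff ℝ ∞ f) : ContDiff ℝ ∞ (dd v f) := by
  unfold dd
  have : ContDiff ℝ ∞ (fderiv ℝ f) := hf.fderiv_right (by simp)
  exact this.clm_apply contDiff_const

theorem continuous_dd (hf : ContDiff ℝ 1 f) : Continuous (dd v f) := by
  unfold dd
  exact (hf.continuous_fderiv (by simp)).clm_apply continuous_const

theorem dd_eq_zero_of_notMem (hp : p ∉ tsupport f) : dd v f p = 0 := by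
  unfold dd
  have : fderiv ℝ f p = 0 := by
    by_contra h
    exact hp (support_fderiv_subset ℝ (f := f) h)
  simp [this]

theorem support_dd_subset : Function.support (dd v f) ⊆ tsupport f := by
  intro p hp
  by_contra h
  exact hp (dd_eq_zero_of_notMem h)

theorem tsupport_dd_subset : tsupport (dd v f) ⊆ tsupport f :=
  closure_minimal support_dd_subset (isClosed_tsupport f)

theorem hasCompactSupport_dd (hf : HasCompactSupport f) : HasCompactSupport (dd v f) :=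
  hf.of_isClosed_subset (isClosed_tsupport _) tsupport_dd_subset

theorem dd_symm (hf : ContDiff ℝ ∞ f) : dd v (dd w f) p = dd w (dd v f) p := by
  have h2 : IsSymmSndFDerivAt ℝ f p := hf.contDiffAt.isSymmSndFDerivAt (by
    simp only [minSmoothness_of_isRCLikeNormedField]
    exact WithTop.coe_le_coe.2 (le_top : (2 : ℕ∞) ≤ ⊤))
  have hd : DifferentiableAt ℝ (fderiv ℝ f) p :=
    ((hf.fderiv_right (m := ∞) (by simp)).differentiable (by simp)) p
  have key : ∀ a b : ℝ × ℝ, dd a (dd b f) p = fderiv ℝ (fderiv ℝ f) p a b := by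
    intro a b
    unfold dd
    rw [fderiv_clm_apply hd (differentiableAt_const b)]
    simp
  rw [key, key]
  exact h2.eq v w

theorem integral_dd_eq_zero (hf : ContDiff ℝ 1 f) (hc : HasCompactSupport f) :
    ∫ p, dd v f p = 0 := by
  have h1 : Integrable (dd v f) := (continuous_dd hf).integrable_of_hasCompactSupport
    (hasCompactSupport_dd hc)
  have h0 : Integrable f := hf.continuous.integrable_of_hasCompactSupport hc
  have := integral_mul_fderiv_eq_neg_fderiv_mul_of_integrable (μ := (volume : Measure (ℝ × ℝ)))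
    (f := fun _ => (1 : ℝ)) (g := f) (v := v) (by simp) (by simp only [one_mul]; exact h1) (by simpa using h0)
    (fun x _ => differentiableAt_const _) (fun x _ => hf.differentiable (by simp) x)
  simpa [dd] using this

/-- the `C^1` function `t ↦ (max t 0)^2`. -/
noncomputable def P (t : ℝ) : ℝ := (max t 0) ^ 2

theorem hasDerivAt_P (t : ℝ) : HasDerivAt P (2 * max t 0) t := by
  rcases lt_trichotomy t 0 with h | h | h
  · have : P =ᶠ[𝓝 t] fun _ => 0 := by
      filter_upwards [Iio_mem_nhds h] with s hs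
      simp [P, max_eq_right (le_of_lt (mem_Iio.1 hs))]
    rw [max_eq_right h.le, mul_zero]
    exact (hasDerivAt_const t (0 : ℝ)).congr_of_eventuallyEq this
  · subst h
    rw [hasDerivAt_iff_isLittleO_nhds_zero]
    have h2 : (fun h : ℝ => h ^ 2) =o[𝓝 0] (fun h => h) := Asymptotics.isLittleO_pow_id (by norm_num)
    refine Asymptotics.IsBigO.trans_isLittleO ?_ h2
    refine Asymptotics.IsBigO.of_bound 1 (Eventually.of_forall fun s => ?_)
    simp only [P, zero_add, max_self, mul_zero, smul_zero, sub_zero, Real.norm_eq_abs, one_mul]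
    rcases le_total s 0 with hs | hs
    · simp [max_eq_right hs]; positivity
    · simp [max_eq_left hs]
  · have : P =ᶠ[𝓝 t] fun s => s ^ 2 := by
      filter_upwards [Ioi_mem_nhds h] with s hs
      simp [P, max_eq_left (le_of_lt (mem_Ioi.1 hs))]
    rw [max_eq_left h.le]
    have h2 : HasDerivAt (fun s : ℝ => s ^ 2) (2 * t) t := by simpa using hasDerivAt_pow 2 t
    exact h2.congr_of_eventuallyEq this

theorem contDiff_P : ContDiff ℝ 1 P := by
  rw [contDiff_one_iff_deriv]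
  refine ⟨fun t => (hasDerivAt_P t).differentiableAt, ?_⟩
  have : deriv P = fun t => 2 * max t 0 := funext fun t => (hasDerivAt_P t).deriv
  rw [this]
  fun_prop

end Pool.Agent.Lib.MP_d36e13_an
end

-- part Pool.Agent.Lib.MP_d36e13_an.Mollify
section

open MeasureTheory Set Filter Topology Metric
open scoped ENNReal ContDiff Convolution

namespace Pool.Agent.Lib.MP_d36e13_an

/-- mollification of `f` by the normed bump `φ`. -/
noncomputable def mol (φ : ContDiffBump (0 : ℝ × ℝ)) (f : ℝ × ℝ → ℝ) : ℝ × ℝ → ℝ :=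
  f ⋆[ContinuousLinearMap.mul ℝ ℝ, volume] (φ.normed volume)

variable {φ : ContDiffBump (0 : ℝ × ℝ)} {f : ℝ × ℝ → ℝ}

theorem contDiff_mol (hf : LocallyIntegrable f volume) : ContDiff ℝ ∞ (mol φ f) :=
  φ.hasCompactSupport_normed.contDiff_convolution_right _ hf φ.contDiff_normed

theorem mol_eq (x : ℝ × ℝ) : mol φ f x = ∫ t, f t * φ.normed volume (x - t) := rfl

theorem dd_mol (hf : LocallyIntegrable f volume) (v x : ℝ × ℝ) :
    dd v (mol φ f) x = ∫ t, f t * dd v (φ.normed volume) (x - t) := by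
  have h := (φ.hasCompactSupport_normed (μ := (volume : Measure (ℝ × ℝ)))).hasFDerivAt_convolution_right
    (μ := (volume : Measure (ℝ × ℝ))) (ContinuousLinearMap.mul ℝ ℝ) hf
    (φ.contDiff_normed (n := 1)) x
  unfold mol
  rw [dd_of_hasFDerivAt h, convolution_precompR_apply _ hf (φ.hasCompactSupport_normed.fderiv ℝ)
    ((φ.contDiff_normed (n := 1)).continuous_fderiv (by simp))]
  rfl

theorem isTest_shift {U : Set (ℝ × ℝ)} {x : ℝ × ℝ} (hx : closedBall x φ.rOut ⊆ U) :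
    IsTest U (fun t => φ.normed volume (x - t)) := by
  have hs : Function.support (fun t => φ.normed volume (x - t)) ⊆ closedBall x φ.rOut := by
    intro t ht
    have : x - t ∈ Function.support (φ.normed volume) := ht
    rw [φ.support_normed_eq, mem_ball_zero_iff] at this
    rw [mem_closedBall, dist_comm, dist_eq_norm]
    exact this.le
  have hts : tsupport (fun t => φ.normed volume (x - t)) ⊆ closedBall x φ.rOut :=
    closure_minimal hs isClosed_closedBall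
  refine ⟨φ.contDiff_normed.comp (contDiff_const.sub contDiff_id), ?_, hts.trans hx⟩
  exact (isCompact_closedBall x φ.rOut).of_isClosed_subset (isClosed_tsupport _) hts

theorem dd_shift (v x t : ℝ × ℝ) :
    dd v (fun t => φ.normed volume (x - t)) t = - dd v (φ.normed volume) (x - t) := by
  have h1 : HasFDerivAt (φ.normed volume) (fderiv ℝ (φ.normed volume) (x - t)) (x - t) :=
    ((φ.contDiff_normed (n := 1)).differentiable (by simp) _).hasFDerivAt
  have h2 : HasFDerivAt (fun t : ℝ × ℝ => x - t) (-ContinuousLinearMap.id ℝ (ℝ × ℝ)) t := by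
    simpa using (hasFDerivAt_id t).const_sub x
  have h3 := h1.comp t h2
  have e : (fun t => φ.normed volume (x - t)) = φ.normed volume ∘ fun t : ℝ × ℝ => x - t := rfl
  rw [e, dd_of_hasFDerivAt h3]
  simp [dd]

theorem lintegral_sq_eq (h : ℝ × ℝ → ℝ) (μ : Measure (ℝ × ℝ)) :
    ∫⁻ x, ENNReal.ofReal (h x ^ 2) ∂μ = eLpNorm h 2 μ ^ 2 := by
  have := eLpNorm_nnreal_pow_eq_lintegral (f := h) (μ := μ) (p := 2) (by norm_num)
  simp only [ENNReal.coe_ofNat, NNReal.coe_ofNat, ENNReal.rpow_ofNat] at this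
  rw [this]
  refine lintegral_congr fun x => ?_
  rw [Real.enorm_eq_ofReal_abs, ← ENNReal.ofReal_pow (abs_nonneg _), sq_abs]

theorem translate_small (hf : MemLp f 2 volume) {ε : ℝ} (hε : 0 < ε) :
    ∃ r > 0, ∀ t : ℝ × ℝ, ‖t‖ < r →
      ∫⁻ x, ENNReal.ofReal ((f (x - t) - f x) ^ 2) ≤ ENNReal.ofReal ε := by
  let g : ℝ × ℝ → C(ℝ × ℝ, ℝ × ℝ) := fun t => ⟨fun x => x - t, by fun_prop⟩
  have hg : Continuous g := by
    apply ContinuousMap.continuous_of_continuous_uncurry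
    change Continuous fun q : (ℝ × ℝ) × (ℝ × ℝ) => q.2 - q.1
    fun_prop
  have hgm : ∀ t, MeasurePreserving (g t) volume volume := fun t =>
    measurePreserving_sub_right volume t
  have hc : Continuous (fun t => Lp.compMeasurePreserving (g t) (hgm t) (hf.toLp f)) :=
    Continuous.compMeasurePreservingLp continuous_const hg hgm (by simp)
  have h0 := hc.continuousAt (x := 0)
  rw [Metric.continuousAt_iff] at h0
  obtain ⟨r, hr, H⟩ := h0 (Real.sqrt ε) (Real.sqrt_pos.2 hε)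
  refine ⟨r, hr, fun t ht => ?_⟩
  have H1 := H (x := t) (by simpa using ht)
  rw [Lp.dist_def] at H1
  have hae : ∀ s : ℝ × ℝ, (Lp.compMeasurePreserving (g s) (hgm s) (hf.toLp f) : ℝ × ℝ → ℝ)
      =ᵐ[volume] fun x => f (x - s) := by
    intro s
    refine (Lp.coeFn_compMeasurePreserving _ (hgm s)).trans ?_
    exact (hgm s).quasiMeasurePreserving.ae_eq_comp hf.coeFn_toLp
  have e : eLpNorm (⇑(Lp.compMeasurePreserving (g t) (hgm t) (hf.toLp f)) -
      ⇑(Lp.compMeasurePreserving (g 0) (hgm 0) (hf.toLp f))) 2 volume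
      = eLpNorm (fun x => f (x - t) - f x) 2 volume := by
    apply eLpNorm_congr_ae
    filter_upwards [hae t, hae 0] with x h1 h2
    rw [Pi.sub_apply, h1, h2, sub_zero]
  rw [e] at H1
  have hm : MemLp (fun x => f (x - t) - f x) 2 volume :=
    (hf.comp_measurePreserving (hgm t)).sub hf
  rw [lintegral_sq_eq (fun x => f (x - t) - f x)]
  have h2 : eLpNorm (fun x => f (x - t) - f x) 2 volume ≤ ENNReal.ofReal (Real.sqrt ε) := by
    rw [← ENNReal.ofReal_toReal hm.2.ne]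
    exact ENNReal.ofReal_le_ofReal H1.le
  calc _ ≤ (ENNReal.ofReal (Real.sqrt ε)) ^ 2 := by gcongr
    _ = ENNReal.ofReal ε := by
      rw [← ENNReal.ofReal_pow (Real.sqrt_nonneg _), Real.sq_sqrt hε.le]

theorem mol_pointwise (hf : MemLp f 2 volume) (x : ℝ × ℝ) :
    ENNReal.ofReal ((mol φ f x - f x) ^ 2) ≤
      ∫⁻ t, ENNReal.ofReal (φ.normed volume t) * ENNReal.ofReal ((f (x - t) - f x) ^ 2) := by
  set ρ := φ.normed (volume : Measure (ℝ × ℝ)) with hρ
  have hρc : Continuous ρ := φ.continuous_normed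
  have hρs : HasCompactSupport ρ := φ.hasCompactSupport_normed
  have hρi : Integrable ρ := φ.integrable_normed
  have hρ1 : ∫ t, ρ t = 1 := φ.integral_normed
  have hρ0 : ∀ t, 0 ≤ ρ t := φ.nonneg_normed
  have hfx : MemLp (fun t => f (x - t)) 2 volume :=
    hf.comp_measurePreserving (Measure.measurePreserving_sub_left volume x)
  have hl1 : LocallyIntegrable (fun t => f (x - t)) volume := hfx.locallyIntegrable (by norm_num)
  have hl2 : LocallyIntegrable (fun t => f (x - t) ^ 2) volume :=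
    hfx.integrable_sq.locallyIntegrable
  have i1 : Integrable (fun t => f (x - t) * ρ t) := by
    simpa [smul_eq_mul] using hl1.integrable_smul_right_of_hasCompactSupport hρc hρs
  have i2 : Integrable (fun t => f (x - t) ^ 2 * ρ t) := by
    simpa [smul_eq_mul] using hl2.integrable_smul_right_of_hasCompactSupport hρc hρs
  have hm : mol φ f x = ∫ t, f (x - t) * ρ t := by
    unfold mol
    rw [convolution_eq_swap]
    rfl
  set m := mol φ f x with hmdef
  set c := f x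
  have key : ∀ a : ℝ, ∫ t, ρ t * (f (x - t) - a) ^ 2 = (∫ t, f (x - t) ^ 2 * ρ t) - 2 * a * m + a ^ 2 := by
    intro a
    have : (fun t => ρ t * (f (x - t) - a) ^ 2) =
        fun t => (f (x - t) ^ 2 * ρ t - 2 * a * (f (x - t) * ρ t)) + a ^ 2 * ρ t := by
      ext t; ring
    have j1 : Integrable (fun t => f (x - t) ^ 2 * ρ t - 2 * a * (f (x - t) * ρ t)) :=
      i2.sub (i1.const_mul _)
    rw [this, integral_add j1 (hρi.const_mul _),
      integral_sub i2 (i1.const_mul _), integral_const_mul, integral_const_mul, hρ1, ← hm]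
    ring
  have ii : ∀ a : ℝ, Integrable (fun t => ρ t * (f (x - t) - a) ^ 2) := by
    intro a
    have : (fun t => ρ t * (f (x - t) - a) ^ 2) =
        fun t => (f (x - t) ^ 2 * ρ t - 2 * a * (f (x - t) * ρ t)) + a ^ 2 * ρ t := by
      ext t; ring
    rw [this]
    exact (i2.sub (i1.const_mul _)).add (hρi.const_mul _)
  have h0 : 0 ≤ ∫ t, ρ t * (f (x - t) - m) ^ 2 :=
    integral_nonneg fun t => mul_nonneg (hρ0 t) (sq_nonneg _)
  have h1 : (m - c) ^ 2 ≤ ∫ t, ρ t * (f (x - t) - c) ^ 2 := by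
    rw [key] at h0 ⊢
    nlinarith
  calc ENNReal.ofReal ((m - c) ^ 2) ≤ ENNReal.ofReal (∫ t, ρ t * (f (x - t) - c) ^ 2) :=
        ENNReal.ofReal_le_ofReal h1
    _ = ∫⁻ t, ENNReal.ofReal (ρ t * (f (x - t) - c) ^ 2) :=
        ofReal_integral_eq_lintegral_ofReal (ii c)
          (Eventually.of_forall fun t => mul_nonneg (hρ0 t) (sq_nonneg _))
    _ = _ := lintegral_congr fun t => ENNReal.ofReal_mul (hρ0 t)

theorem mol_close (hf : MemLp f 2 volume) {ε : ℝ} (hε : 0 < ε) :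
    ∃ r > 0, ∀ φ : ContDiffBump (0 : ℝ × ℝ), φ.rOut ≤ r →
      ∫⁻ x, ENNReal.ofReal ((mol φ f x - f x) ^ 2) ≤ ENNReal.ofReal ε := by
  obtain ⟨r, hr, H⟩ := translate_small hf hε
  refine ⟨r, hr, fun φ hφ => ?_⟩
  have hmeas : AEMeasurable (Function.uncurry fun x t : ℝ × ℝ =>
      ENNReal.ofReal (φ.normed volume t) * ENNReal.ofReal ((f (x - t) - f x) ^ 2))
      ((volume : Measure (ℝ × ℝ)).prod volume) := by
    have a1 : AEMeasurable (fun q : (ℝ × ℝ) × (ℝ × ℝ) => f (q.1 - q.2))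
        ((volume : Measure (ℝ × ℝ)).prod volume) :=
      hf.1.aemeasurable.comp_quasiMeasurePreserving
        (quasiMeasurePreserving_sub_of_right_invariant volume volume)
    have a2 : AEMeasurable (fun q : (ℝ × ℝ) × (ℝ × ℝ) => f q.1)
        ((volume : Measure (ℝ × ℝ)).prod volume) :=
      hf.1.aemeasurable.comp_quasiMeasurePreserving Measure.quasiMeasurePreserving_fst
    have a3 : AEMeasurable (fun q : (ℝ × ℝ) × (ℝ × ℝ) => φ.normed volume q.2)
        ((volume : Measure (ℝ × ℝ)).prod volume) :=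
      (φ.continuous_normed.comp continuous_snd).measurable.aemeasurable
    exact a3.ennreal_ofReal.mul ((a1.sub a2).pow_const 2).ennreal_ofReal
  calc ∫⁻ x, ENNReal.ofReal ((mol φ f x - f x) ^ 2)
      ≤ ∫⁻ x, ∫⁻ t, ENNReal.ofReal (φ.normed volume t) * ENNReal.ofReal ((f (x - t) - f x) ^ 2) :=
        lintegral_mono fun x => mol_pointwise hf x
    _ = ∫⁻ t, ∫⁻ x, ENNReal.ofReal (φ.normed volume t) * ENNReal.ofReal ((f (x - t) - f x) ^ 2) :=
        lintegral_lintegral_swap hmeas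
    _ ≤ ∫⁻ t, ENNReal.ofReal (φ.normed volume t) * ENNReal.ofReal ε := by
        refine lintegral_mono fun t => ?_
        rw [lintegral_const_mul' _ _ ENNReal.ofReal_ne_top]
        by_cases ht : φ.normed volume t = 0
        · simp [ht]
        · have : t ∈ Function.support (φ.normed volume) := ht
          rw [φ.support_normed_eq, mem_ball_zero_iff] at this
          gcongr
          exact H t (this.trans_le hφ)
    _ = ENNReal.ofReal ε := by
        rw [lintegral_mul_const' _ _ ENNReal.ofReal_ne_top,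
          ← ofReal_integral_eq_lintegral_ofReal φ.integrable_normed
            (Eventually.of_forall φ.nonneg_normed), φ.integral_normed]
        simp

/-- a bump of outer radius `r` -/
noncomputable def bump (r : ℝ) (hr : 0 < r) : ContDiffBump (0 : ℝ × ℝ) :=
  ⟨r / 2, r, half_pos hr, half_lt_self hr⟩

theorem memLp_on_compact {K : Set (ℝ × ℝ)} (hK : IsCompact K) {v : ℝ × ℝ → ℝ} (hv : Continuous v)
    (q : ℝ≥0∞) : MemLp v q (volume.restrict K) := by
  have : IsFiniteMeasure (volume.restrict K) := isFiniteMeasure_restrict.2 hK.measure_lt_top.ne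
  obtain ⟨C, hC⟩ := hK.exists_bound_of_continuousOn hv.continuousOn
  refine MemLp.of_bound hv.aestronglyMeasurable C ?_
  exact (ae_restrict_iff' hK.measurableSet).2 (Eventually.of_forall hC)

theorem mol_close_on {Ω K : Set (ℝ × ℝ)} (hΩ : MeasurableSet Ω) (hK : IsCompact K) (hKΩ : K ⊆ Ω)
    (hf : MemLp f 2 (volume.restrict Ω)) {ε : ℝ} (hε : 0 < ε) :
    ∃ r > 0, ∀ φ : ContDiffBump (0 : ℝ × ℝ), φ.rOut ≤ r →
      ∫ x in K, (mol φ (Ω.indicator f) x - f x) ^ 2 ≤ ε := by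
  have hf' : MemLp (Ω.indicator f) 2 volume := (memLp_indicator_iff_restrict hΩ).2 hf
  obtain ⟨r, hr, H⟩ := mol_close hf' hε
  refine ⟨r, hr, fun φ hφ => ?_⟩
  have h1 := H φ hφ
  have hc : Continuous (mol φ (Ω.indicator f)) :=
    (contDiff_mol (hf'.locallyIntegrable (by norm_num))).continuous
  have hfK : MemLp f 2 (volume.restrict K) := hf.mono_measure (Measure.restrict_mono hKΩ le_rfl)
  have hi : Integrable (fun x => (mol φ (Ω.indicator f) x - f x) ^ 2) (volume.restrict K) :=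
    ((memLp_on_compact hK hc 2).sub hfK).integrable_sq
  have h2 : ∫⁻ x in K, ENNReal.ofReal ((mol φ (Ω.indicator f) x - f x) ^ 2) ≤ ENNReal.ofReal ε := by
    refine le_trans ?_ h1
    calc ∫⁻ x in K, ENNReal.ofReal ((mol φ (Ω.indicator f) x - f x) ^ 2)
        = ∫⁻ x in K, ENNReal.ofReal ((mol φ (Ω.indicator f) x - Ω.indicator f x) ^ 2) := by
          refine setLIntegral_congr_fun hK.measurableSet fun x hx => ?_
          simp only [indicator_of_mem (hKΩ hx)]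
      _ ≤ _ := setLIntegral_le_lintegral _ _
  rw [← ofReal_integral_eq_lintegral_ofReal hi (Eventually.of_forall fun x => sq_nonneg _)] at h2
  exact (ENNReal.ofReal_le_ofReal_iff hε.le).1 h2

theorem mol_indicator {Ω : Set (ℝ × ℝ)} (hΩ : MeasurableSet Ω) (x : ℝ × ℝ) :
    mol φ (Ω.indicator f) x = ∫ t in Ω, f t * φ.normed volume (x - t) := by
  rw [mol_eq, ← integral_indicator hΩ]
  refine integral_congr_ae (Eventually.of_forall fun t => ?_)
  by_cases ht : t ∈ Ω <;> simp [ht]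

theorem dd_mol_indicator {Ω : Set (ℝ × ℝ)} (hΩ : MeasurableSet Ω)
    (hf : MemLp f 2 (volume.restrict Ω)) (v x : ℝ × ℝ) :
    dd v (mol φ (Ω.indicator f)) x =
      - ∫ t in Ω, f t * dd v (fun t => φ.normed volume (x - t)) t := by
  have hf' : MemLp (Ω.indicator f) 2 volume := (memLp_indicator_iff_restrict hΩ).2 hf
  rw [dd_mol (hf'.locallyIntegrable (by norm_num)), ← integral_neg, ← integral_indicator hΩ]
  refine integral_congr_ae (Eventually.of_forall fun t => ?_)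
  by_cases ht : t ∈ Ω <;> simp [ht, dd_shift]

theorem exists_radius {U K : Set (ℝ × ℝ)} (hU : IsOpen U) (hK : IsCompact K) (hKU : K ⊆ U) :
    ∃ r > 0, ∀ x ∈ K, closedBall x r ⊆ U := by
  obtain ⟨r, hr, h⟩ := hK.exists_cthickening_subset_open hU hKU
  exact ⟨r, hr, fun x hx => (closedBall_subset_cthickening hx r).trans h⟩

/-- real weak gradient -/
structure WeakGrad (Ω : Set (ℝ × ℝ)) (u g₁ g₂ : ℝ × ℝ → ℝ) : Prop where
  mu : MemLp u 2 (volume.restrict Ω)
  m₁ : MemLp g₁ 2 (volume.restrict Ω)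
  m₂ : MemLp g₂ 2 (volume.restrict Ω)
  w₁ : ∀ φ, IsTest Ω φ → ∫ p in Ω, u p * dd (1, 0) φ p = - ∫ p in Ω, g₁ p * φ p
  w₂ : ∀ φ, IsTest Ω φ → ∫ p in Ω, u p * dd (0, 1) φ p = - ∫ p in Ω, g₂ p * φ p

theorem WeakGrad.approx {Ω K : Set (ℝ × ℝ)} {u g₁ g₂ : ℝ × ℝ → ℝ} (h : WeakGrad Ω u g₁ g₂)
    (hΩ : IsOpen Ω) (hK : IsCompact K) (hKΩ : K ⊆ Ω) {ε : ℝ} (hε : 0 < ε) :
    ∃ v : ℝ × ℝ → ℝ, ContDiff ℝ ∞ v ∧ ∫ x in K, (v x - u x) ^ 2 ≤ ε ∧
      ∫ x in K, (dd (1, 0) v x - g₁ x) ^ 2 ≤ ε ∧ ∫ x in K, (dd (0, 1) v x - g₂ x) ^ 2 ≤ ε := by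
  have hm := hΩ.measurableSet
  obtain ⟨r0, hr0, H0⟩ := mol_close_on hm hK hKΩ h.mu hε
  obtain ⟨r1, hr1, H1⟩ := mol_close_on hm hK hKΩ h.m₁ hε
  obtain ⟨r2, hr2, H2⟩ := mol_close_on hm hK hKΩ h.m₂ hε
  obtain ⟨r3, hr3, H3⟩ := exists_radius hΩ hK hKΩ
  have hr : 0 < min (min r0 r1) (min r2 r3) := by positivity
  let φ := bump _ hr
  have hφ : φ.rOut = min (min r0 r1) (min r2 r3) := rfl
  have hb : ∀ x ∈ K, closedBall x φ.rOut ⊆ Ω := fun x hx =>
    (closedBall_subset_closedBall (by rw [hφ]; exact (min_le_right _ _).trans (min_le_right _ _))).trans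
      (H3 x hx)
  have hu' : MemLp (Ω.indicator u) 2 volume := (memLp_indicator_iff_restrict hm).2 h.mu
  refine ⟨mol φ (Ω.indicator u), contDiff_mol (hu'.locallyIntegrable (by norm_num)),
    H0 φ (by rw [hφ]; exact (min_le_left _ _).trans (min_le_left _ _)), ?_, ?_⟩
  · refine le_trans (le_of_eq ?_) (H1 φ (by rw [hφ]; exact (min_le_left _ _).trans (min_le_right _ _)))
    refine setIntegral_congr_fun hK.measurableSet fun x hx => ?_
    rw [dd_mol_indicator hm h.mu, h.w₁ _ (isTest_shift (hb x hx)), neg_neg, mol_indicator hm]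
  · refine le_trans (le_of_eq ?_) (H2 φ (by rw [hφ]; exact (min_le_right _ _).trans (min_le_left _ _)))
    refine setIntegral_congr_fun hK.measurableSet fun x hx => ?_
    rw [dd_mol_indicator hm h.mu, h.w₂ _ (isTest_shift (hb x hx)), neg_neg, mol_indicator hm]

theorem integrable_mul_of_test {Ω : Set (ℝ × ℝ)} (hf : MemLp f 2 (volume.restrict Ω))
    {ψ : ℝ × ℝ → ℝ} (hψ : Continuous ψ) (hc : HasCompactSupport ψ) :
    Integrable (fun x => f x * ψ x) (volume.restrict Ω) :=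
  hf.integrable_mul ((hψ.memLp_of_hasCompactSupport (p := 2) (μ := volume) hc).restrict Ω)

/-- a weakly curl-free field is locally approximated by smooth curl-free fields -/
theorem curlfree_approx {Ω U K : Set (ℝ × ℝ)} {A₁ A₂ : ℝ × ℝ → ℝ} (hΩ : MeasurableSet Ω)
    (hU : IsOpen U) (hUΩ : U ⊆ Ω) (hK : IsCompact K) (hKU : K ⊆ U)
    (h₁ : MemLp A₁ 2 (volume.restrict Ω)) (h₂ : MemLp A₂ 2 (volume.restrict Ω))
    (hc : ∀ φ, IsTest U φ → ∫ p in Ω, (A₁ p * dd (0, 1) φ p - A₂ p * dd (1, 0) φ p) = 0)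
    {ε : ℝ} (hε : 0 < ε) :
    ∃ a₁ a₂ : ℝ × ℝ → ℝ, ContDiff ℝ ∞ a₁ ∧ ContDiff ℝ ∞ a₂ ∧
      (∀ x ∈ K, dd (0, 1) a₁ x = dd (1, 0) a₂ x) ∧
      ∫ x in K, (a₁ x - A₁ x) ^ 2 ≤ ε ∧ ∫ x in K, (a₂ x - A₂ x) ^ 2 ≤ ε := by
  have hKΩ := hKU.trans hUΩ
  obtain ⟨r1, hr1, H1⟩ := mol_close_on hΩ hK hKΩ h₁ hε
  obtain ⟨r2, hr2, H2⟩ := mol_close_on hΩ hK hKΩ h₂ hε
  obtain ⟨r3, hr3, H3⟩ := exists_radius hU hK hKU
  have hr : 0 < min r1 (min r2 r3) := by positivity
  let φ := bump _ hr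
  have hφ : φ.rOut = min r1 (min r2 r3) := rfl
  have hb : ∀ x ∈ K, closedBall x φ.rOut ⊆ U := fun x hx =>
    (closedBall_subset_closedBall (by rw [hφ]; exact (min_le_right _ _).trans (min_le_right _ _))).trans
      (H3 x hx)
  have h1' : MemLp (Ω.indicator A₁) 2 volume := (memLp_indicator_iff_restrict hΩ).2 h₁
  have h2' : MemLp (Ω.indicator A₂) 2 volume := (memLp_indicator_iff_restrict hΩ).2 h₂
  refine ⟨mol φ (Ω.indicator A₁), mol φ (Ω.indicator A₂),
    contDiff_mol (h1'.locallyIntegrable (by norm_num)),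
    contDiff_mol (h2'.locallyIntegrable (by norm_num)), fun x hx => ?_,
    H1 φ (by rw [hφ]; exact min_le_left _ _),
    H2 φ (by rw [hφ]; exact (min_le_right _ _).trans (min_le_left _ _))⟩
  have ht := isTest_shift (hb x hx)
  have h := hc _ ht
  have c1 : ContDiff ℝ 1 (fun t => φ.normed volume (x - t)) := ht.1.of_le (by exact_mod_cast le_top)
  rw [integral_sub (integrable_mul_of_test h₁ (continuous_dd c1) (hasCompactSupport_dd ht.2.1))
    (integrable_mul_of_test h₂ (continuous_dd c1) (hasCompactSupport_dd ht.2.1))] at h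
  rw [dd_mol_indicator hΩ h₁, dd_mol_indicator hΩ h₂]
  linarith

end Pool.Agent.Lib.MP_d36e13_an
end

-- part Pool.Agent.Lib.MP_d36e13_an.Smooth
section

open MeasureTheory Set Filter Topology Metric
open scoped ENNReal ContDiff

namespace Pool.Agent.Lib.MP_d36e13_an

/-- squared `L²` norm -/
noncomputable def Q (S : Set (ℝ × ℝ)) (f : ℝ × ℝ → ℝ) : ℝ := ∫ x in S, f x ^ 2

theorem Q_nonneg (S : Set (ℝ × ℝ)) (f : ℝ × ℝ → ℝ) : 0 ≤ Q S f :=
  integral_nonneg fun _ => sq_nonneg _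

theorem memLp_mul_top {μ : Measure (ℝ × ℝ)} {A f : ℝ × ℝ → ℝ} {q : ℝ≥0∞} (hA : MemLp A ⊤ μ)
    (hf : MemLp f q μ) : MemLp (fun x => A x * f x) q μ :=
  MemLp.mul' hf hA

theorem memLp_sub {S T : Set (ℝ × ℝ)} {f : ℝ × ℝ → ℝ} {q : ℝ≥0∞} (h : S ⊆ T)
    (hf : MemLp f q (volume.restrict T)) : MemLp f q (volume.restrict S) :=
  hf.mono_measure (Measure.restrict_mono h le_rfl)

theorem Q_mono {S T : Set (ℝ × ℝ)} {f : ℝ × ℝ → ℝ} (h : S ⊆ T)
    (hf : MemLp f 2 (volume.restrict T)) : Q S f ≤ Q T f :=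
  setIntegral_mono_set hf.integrable_sq (Eventually.of_forall fun _ => sq_nonneg _)
    h.eventuallyLE

theorem Q_le {S : Set (ℝ × ℝ)} {f g h : ℝ × ℝ → ℝ} (hf : MemLp f 2 (volume.restrict S))
    (hg : MemLp g 2 (volume.restrict S)) (hh : MemLp h 2 (volume.restrict S)) {a c : ℝ}
    (H : ∀ᵐ x ∂(volume.restrict S), f x ^ 2 ≤ a * g x ^ 2 + c * h x ^ 2) :
    Q S f ≤ a * Q S g + c * Q S h := by
  unfold Q
  rw [← integral_const_mul, ← integral_const_mul,
    ← integral_add (hg.integrable_sq.const_mul _) (hh.integrable_sq.const_mul _)]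
  exact integral_mono_ae hf.integrable_sq
    ((hg.integrable_sq.const_mul _).add (hh.integrable_sq.const_mul _)) H

theorem amgm {c a z t s : ℝ} (hc : |c| ≤ 1) (ht : 0 < t) (hts : t * s = 1) :
    2 * (c * a * z) ≤ t * a ^ 2 + s * z ^ 2 := by
  have hc2 : c ^ 2 ≤ 1 := by rw [← sq_abs]; nlinarith [abs_nonneg c]
  have h1 : t * (2 * (c * a * z)) ≤ t * (t * a ^ 2 + s * z ^ 2) := by
    have e : t * (t * a ^ 2 + s * z ^ 2) = t ^ 2 * a ^ 2 + z ^ 2 := by
      calc _ = t ^ 2 * a ^ 2 + (t * s) * z ^ 2 := by ring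
        _ = _ := by rw [hts, one_mul]
    rw [e]
    nlinarith [sq_nonneg (t * a - c * z), mul_le_mul_of_nonneg_right hc2 (sq_nonneg z)]
  exact le_of_mul_le_mul_left h1 ht

theorem pointwise_bound {V₁ V₂ c₀ c₁ c₂ p q X₁ Y₁ X₂ Y₂ t s : ℝ} (hV₁ : |V₁| ≤ 1) (hV₂ : |V₂| ≤ 1)
    (hc₀ : |c₀| ≤ 1) (hc₁ : |c₁| ≤ 1) (hc₂ : |c₂| ≤ 1) (ht : 0 < t) (hts : t * s = 1) :
    -2 * V₁ * (p * Y₁ + q * X₁) - 2 * V₂ * (p * Y₂ + q * X₂) +
      (2 * c₀ * (Y₁ * X₂ - X₁ * Y₂) + c₁ * (p * X₂ - q * Y₂) - c₂ * (p * X₁ - q * Y₁)) ≤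
      3 * t * (p ^ 2 + q ^ 2) + (3 / 2 * s + 1) * (X₁ ^ 2 + Y₁ ^ 2 + X₂ ^ 2 + Y₂ ^ 2) := by
  have n₁ : |-V₁| ≤ 1 := by rwa [abs_neg]
  have n₂ : |-V₂| ≤ 1 := by rwa [abs_neg]
  have m₀ : |-c₀| ≤ 1 := by rwa [abs_neg]
  have m₁ : |-c₁| ≤ 1 := by rwa [abs_neg]
  have m₂ : |-c₂| ≤ 1 := by rwa [abs_neg]
  have a1 := amgm (a := p) (z := Y₁) n₁ ht hts
  have a2 := amgm (a := q) (z := X₁) n₁ ht hts
  have a3 := amgm (a := p) (z := Y₂) n₂ ht hts
  have a4 := amgm (a := q) (z := X₂) n₂ ht hts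
  have a5 := amgm (a := p) (z := X₂) hc₁ ht hts
  have a6 := amgm (a := q) (z := Y₂) m₁ ht hts
  have a7 := amgm (a := p) (z := X₁) m₂ ht hts
  have a8 := amgm (a := q) (z := Y₁) hc₂ ht hts
  have a9 := amgm (a := Y₁) (z := X₂) (t := 1) (s := 1) hc₀ one_pos (one_mul 1)
  have a10 := amgm (a := X₁) (z := Y₂) (t := 1) (s := 1) m₀ one_pos (one_mul 1)
  nlinarith

theorem setIntegral_dd_eq_zero {K : Set (ℝ × ℝ)} (hK : IsCompact K) {f : ℝ × ℝ → ℝ}
    (hf : ContDiff ℝ 1 f) (hs : tsupport f ⊆ K) (v : ℝ × ℝ) : ∫ x in K, dd v f x = 0 := by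
  rw [setIntegral_eq_integral_of_forall_compl_eq_zero
    (fun x hx => dd_eq_zero_of_notMem fun h => hx (hs h))]
  exact integral_dd_eq_zero hf (hK.of_isClosed_subset (isClosed_tsupport _) hs)

/-- The geometric data used in the lower bound. -/
structure Geom (Ω D K K' : Set (ℝ × ℝ)) (V₁ V₂ χ : ℝ × ℝ → ℝ) (M κ : ℝ) : Prop where
  hΩ : IsOpen Ω
  hK : IsCompact K
  hKΩ : K ⊆ Ω
  hK' : MeasurableSet K'
  hK'K : K' ⊆ K
  cV₁ : ContDiff ℝ 1 V₁
  cV₂ : ContDiff ℝ 1 V₂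
  sV₁ : tsupport V₁ ⊆ K
  sV₂ : tsupport V₂ ⊆ K
  bV₁ : ∀ x, |V₁ x| ≤ 1
  bV₂ : ∀ x, |V₂ x| ≤ 1
  cχ : ContDiff ℝ ∞ χ
  sχ : tsupport χ ⊆ K
  sχ' : tsupport χ ⊆ D
  bχ : ∀ x, |χ x| ≤ 1
  hM : 0 ≤ M
  bχ₁ : ∀ x, |dd (1, 0) χ x| ≤ M
  bχ₂ : ∀ x, |dd (0, 1) χ x| ≤ M
  hκ : 0 < κ
  W₀ : ∀ x ∈ K, 0 ≤ dd (1, 0) V₁ x + dd (0, 1) V₂ x + 4 * χ x
  W₁ : ∀ x ∈ K', κ ≤ dd (1, 0) V₁ x + dd (0, 1) V₂ x + 4 * χ x

theorem top_one : (1 : WithTop ℕ∞) ≤ ((⊤ : ℕ∞) : WithTop ℕ∞) := by exact_mod_cast le_top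

theorem integral_split {μ : Measure (ℝ × ℝ)} {f₁ f₂ f₃ f₄ f₅ f₆ g₁ g₂ g₃ g₄ g₅ g₆ h : ℝ × ℝ → ℝ}
    {β b a c : ℝ} (i₁ : Integrable f₁ μ) (i₂ : Integrable f₂ μ) (i₃ : Integrable f₃ μ)
    (i₄ : Integrable f₄ μ) (i₅ : Integrable f₅ μ) (i₆ : Integrable f₆ μ) (j₁ : Integrable g₁ μ)
    (j₂ : Integrable g₂ μ) (j₃ : Integrable g₃ μ) (j₄ : Integrable g₄ μ) (j₅ : Integrable g₅ μ)
    (j₆ : Integrable g₆ μ) (ih : Integrable h μ)
    (H : ∀ x, h x ≤ ((f₁ x + f₂ x) - β * (f₃ x - f₄ x) - β * (f₅ x - b * f₆ x)) +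
      (a * (g₁ x + g₂ x) + c * (g₃ x + g₄ x + g₅ x + g₆ x))) :
    ∫ x, h x ∂μ ≤ ((∫ x, f₁ x ∂μ + ∫ x, f₂ x ∂μ) - β * (∫ x, f₃ x ∂μ - ∫ x, f₄ x ∂μ) -
      β * (∫ x, f₅ x ∂μ - b * ∫ x, f₆ x ∂μ)) + (a * (∫ x, g₁ x ∂μ + ∫ x, g₂ x ∂μ) +
      c * (∫ x, g₃ x ∂μ + ∫ x, g₄ x ∂μ + ∫ x, g₅ x ∂μ + ∫ x, g₆ x ∂μ)) := by
  have k1 : Integrable (fun x => f₁ x + f₂ x) μ := i₁.add i₂
  have k2 : Integrable (fun x => f₃ x - f₄ x) μ := i₃.sub i₄
  have k3 : Integrable (fun x => f₅ x - b * f₆ x) μ := i₅.sub (i₆.const_mul b)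
  have k4 : Integrable (fun x => f₁ x + f₂ x - β * (f₃ x - f₄ x)) μ := k1.sub (k2.const_mul β)
  have k5 : Integrable (fun x => f₁ x + f₂ x - β * (f₃ x - f₄ x) - β * (f₅ x - b * f₆ x)) μ :=
    k4.sub (k3.const_mul β)
  have l1 : Integrable (fun x => g₁ x + g₂ x) μ := j₁.add j₂
  have l2 : Integrable (fun x => g₃ x + g₄ x) μ := j₃.add j₄
  have l3 : Integrable (fun x => g₃ x + g₄ x + g₅ x) μ := l2.add j₅
  have l4 : Integrable (fun x => g₃ x + g₄ x + g₅ x + g₆ x) μ := l3.add j₆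
  have l5 : Integrable (fun x => a * (g₁ x + g₂ x) + c * (g₃ x + g₄ x + g₅ x + g₆ x)) μ :=
    (l1.const_mul a).add (l4.const_mul c)
  refine (integral_mono ih (k5.add l5) H).trans (le_of_eq ?_)
  simp only [Pi.add_apply]
  rw [integral_add k5 l5, integral_sub k4 (k3.const_mul β), integral_sub k1 (k2.const_mul β),
    integral_add i₁ i₂, integral_const_mul, integral_const_mul, integral_sub i₃ i₄,
    integral_sub i₅ (i₆.const_mul b), integral_const_mul,
    integral_add (l1.const_mul a) (l4.const_mul c), integral_const_mul, integral_const_mul,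
    integral_add j₁ j₂, integral_add l3 j₆, integral_add l2 j₅, integral_add j₃ j₄]

theorem Geom.smooth_ineq {Ω D K K' : Set (ℝ × ℝ)} {V₁ V₂ χ : ℝ × ℝ → ℝ} {M κ : ℝ}
    (g : Geom Ω D K K' V₁ V₂ χ M κ) {b : ℝ} (hb : 4 * (M + 1) ≤ b) {A₁ A₂ : ℝ × ℝ → ℝ}
    (hA₁ : MemLp A₁ ⊤ (volume.restrict Ω)) (hA₂ : MemLp A₂ ⊤ (volume.restrict Ω))
    (hc : ∀ φ, IsTest Ω φ →
      ∫ p in Ω, (A₁ p * dd (0, 1) φ p - A₂ p * dd (1, 0) φ p) = b * ∫ p in D, φ p)
    {p q : ℝ × ℝ → ℝ} (hp : ContDiff ℝ ∞ p) (hq : ContDiff ℝ ∞ q) :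
    κ * (Q K' p + Q K' q) ≤ κ / 8 * (Q K p + Q K q) + (36 / κ + 1) *
      (Q K (fun x => dd (1, 0) q x - A₁ x * p x) + Q K (fun x => dd (1, 0) p x + A₁ x * q x) +
       Q K (fun x => dd (0, 1) q x - A₂ x * p x) + Q K (fun x => dd (0, 1) p x + A₂ x * q x)) := by
  have hK := g.hK
  have hKm := hK.measurableSet
  have hκ := g.hκ
  have hM := g.hM
  have hb0 : 0 < b := by linarith
  set β : ℝ := 4 / b with hβ
  have hβb : β * b = 4 := by rw [hβ]; field_simp
  have hβ0 : 0 < β := by positivity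
  have hβM : β * (M + 1) ≤ 1 := by
    rw [hβ, div_mul_eq_mul_div, div_le_one hb0]; exact hb
  -- the smooth building blocks
  let N : ℝ × ℝ → ℝ := fun x => p x * p x + q x * q x
  have cN : ContDiff ℝ ∞ N := (hp.mul hp).add (hq.mul hq)
  let φ : ℝ × ℝ → ℝ := fun x => χ x * N x
  have cφ : ContDiff ℝ ∞ φ := g.cχ.mul cN
  have sφ : tsupport φ ⊆ tsupport χ := tsupport_mul_subset_left
  let j : ℝ × ℝ → ℝ × ℝ → ℝ := fun v x => p x * dd v q x - q x * dd v p x
  have cj : ∀ v, ContDiff ℝ ∞ (j v) := fun v =>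
    (hp.mul (contDiff_dd_top hq)).sub (hq.mul (contDiff_dd_top hp))
  have dp : Differentiable ℝ p := hp.differentiable (by simp)
  have dq : Differentiable ℝ q := hq.differentiable (by simp)
  have dχ : Differentiable ℝ χ := g.cχ.differentiable (by simp)
  have dN : Differentiable ℝ N := cN.differentiable (by simp)
  have ddp : ∀ v, Differentiable ℝ (dd v p) := fun v => (contDiff_dd_top hp).differentiable (by simp)
  have ddq : ∀ v, Differentiable ℝ (dd v q) := fun v => (contDiff_dd_top hq).differentiable (by simp)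
  have eN : ∀ v x, dd v N x = 2 * (p x * dd v p x + q x * dd v q x) := by
    intro v x
    simp only [N]
    rw [dd_add ((dp x).fun_mul (dp x)) ((dq x).fun_mul (dq x)), dd_mul (dp x) (dp x), dd_mul (dq x) (dq x)]
    ring
  have ej : ∀ v w x, dd w (j v) x = dd w p x * dd v q x + p x * dd w (dd v q) x -
      (dd w q x * dd v p x + q x * dd w (dd v p) x) := by
    intro v w x
    simp only [j]
    rw [dd_sub ((dp x).fun_mul (ddq v x)) ((dq x).fun_mul (ddp v x)), dd_mul (dp x) (ddq v x),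
      dd_mul (dq x) (ddp v x)]
  let G₁ : ℝ × ℝ → ℝ := fun x => V₁ x * N x
  let G₂ : ℝ × ℝ → ℝ := fun x => V₂ x * N x
  let H₁ : ℝ × ℝ → ℝ := fun x => χ x * j (0, 1) x
  let H₂ : ℝ × ℝ → ℝ := fun x => χ x * j (1, 0) x
  have cG₁ : ContDiff ℝ 1 G₁ := g.cV₁.mul (cN.of_le top_one)
  have cG₂ : ContDiff ℝ 1 G₂ := g.cV₂.mul (cN.of_le top_one)
  have cH₁ : ContDiff ℝ 1 H₁ := (g.cχ.mul (cj _)).of_le top_one
  have cH₂ : ContDiff ℝ 1 H₂ := (g.cχ.mul (cj _)).of_le top_one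
  have zG₁ := setIntegral_dd_eq_zero hK cG₁ (tsupport_mul_subset_left.trans g.sV₁) (1, 0)
  have zG₂ := setIntegral_dd_eq_zero hK cG₂ (tsupport_mul_subset_left.trans g.sV₂) (0, 1)
  have zH₁ := setIntegral_dd_eq_zero hK cH₁ (tsupport_mul_subset_left.trans g.sχ) (1, 0)
  have zH₂ := setIntegral_dd_eq_zero hK cH₂ (tsupport_mul_subset_left.trans g.sχ) (0, 1)
  have tφ : IsTest Ω φ := ⟨cφ, hK.of_isClosed_subset (isClosed_tsupport _) (sφ.trans g.sχ),
    (sφ.trans g.sχ).trans g.hKΩ⟩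
  have zJ : ∫ x in K, (A₁ x * dd (0, 1) φ x - A₂ x * dd (1, 0) φ x) = b * ∫ x in K, φ x := by
    have h := hc φ tφ
    rw [setIntegral_eq_of_subset_of_forall_sdiff_eq_zero g.hΩ.measurableSet g.hKΩ
      (fun x hx => by
        have : x ∉ tsupport φ := fun h => hx.2 (g.sχ (sφ h))
        simp [dd_eq_zero_of_notMem this])] at h
    rw [h, setIntegral_eq_integral_of_forall_compl_eq_zero (s := D)
      (fun x hx => image_eq_zero_of_notMem_tsupport fun h => hx (g.sχ' (sφ h))),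
      setIntegral_eq_integral_of_forall_compl_eq_zero (s := K)
      (fun x hx => image_eq_zero_of_notMem_tsupport fun h => hx (g.sχ (sφ h)))]
  -- integrability
  have ic : ∀ {f : ℝ × ℝ → ℝ}, Continuous f → Integrable f (volume.restrict K) := fun hf =>
    hf.continuousOn.integrableOn_compact hK
  have mc : ∀ {f : ℝ × ℝ → ℝ}, Continuous f → MemLp f 2 (volume.restrict K) := fun hf =>
    memLp_on_compact hK hf 2
  have hA₁K := memLp_sub g.hKΩ hA₁
  have hA₂K := memLp_sub g.hKΩ hA₂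
  have cdp : ∀ v, Continuous (dd v p) := fun v => (contDiff_dd_top hp).continuous
  have cdq : ∀ v, Continuous (dd v q) := fun v => (contDiff_dd_top hq).continuous
  have cdφ : ∀ v, Continuous (dd v φ) := fun v => (contDiff_dd_top cφ).continuous
  have mX₁ : MemLp (fun x => dd (1, 0) q x - A₁ x * p x) 2 (volume.restrict K) :=
    (mc (cdq _)).sub (memLp_mul_top hA₁K (mc hp.continuous))
  have mY₁ : MemLp (fun x => dd (1, 0) p x + A₁ x * q x) 2 (volume.restrict K) :=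
    (mc (cdp _)).add (memLp_mul_top hA₁K (mc hq.continuous))
  have mX₂ : MemLp (fun x => dd (0, 1) q x - A₂ x * p x) 2 (volume.restrict K) :=
    (mc (cdq _)).sub (memLp_mul_top hA₂K (mc hp.continuous))
  have mY₂ : MemLp (fun x => dd (0, 1) p x + A₂ x * q x) 2 (volume.restrict K) :=
    (mc (cdp _)).add (memLp_mul_top hA₂K (mc hq.continuous))
  have iJ : Integrable (fun x => A₁ x * dd (0, 1) φ x - A₂ x * dd (1, 0) φ x) (volume.restrict K) := by
    rw [← memLp_one_iff_integrable]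
    exact (memLp_mul_top hA₁K (memLp_on_compact hK (cdφ _) 1)).sub
      (memLp_mul_top hA₂K (memLp_on_compact hK (cdφ _) 1))
  let W : ℝ × ℝ → ℝ := fun x => dd (1, 0) V₁ x + dd (0, 1) V₂ x + 4 * χ x
  have cW : Continuous W := ((continuous_dd g.cV₁).add (continuous_dd g.cV₂)).add
    (continuous_const.mul g.cχ.continuous)
  have N0 : ∀ x, 0 ≤ N x := fun x => add_nonneg (mul_self_nonneg _) (mul_self_nonneg _)
  have iWN : Integrable (fun x => W x * N x) (volume.restrict K) := ic (cW.mul cN.continuous)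
  -- step 1
  have step1 : κ * (Q K' p + Q K' q) ≤ ∫ x in K, W x * N x := by
    have ip := (memLp_sub g.hK'K (mc hp.continuous)).integrable_sq
    have iq := (memLp_sub g.hK'K (mc hq.continuous)).integrable_sq
    unfold Q
    rw [← integral_add ip iq, ← integral_const_mul]
    calc ∫ x in K', κ * (p x ^ 2 + q x ^ 2) ≤ ∫ x in K', W x * N x := by
          refine setIntegral_mono_on ((ip.add iq).const_mul _)
            (iWN.mono_measure (Measure.restrict_mono g.hK'K le_rfl)) g.hK' fun x hx => ?_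
          have : p x ^ 2 + q x ^ 2 = N x := by simp only [N]; ring
          rw [this]
          exact mul_le_mul_of_nonneg_right (g.W₁ x hx) (N0 x)
      _ ≤ ∫ x in K, W x * N x := by
          refine setIntegral_mono_set iWN ?_ g.hK'K.eventuallyLE
          exact (ae_restrict_iff' hKm).2 (Eventually.of_forall fun x hx =>
            mul_nonneg (g.W₀ x hx) (N0 x))
  -- step 2
  have hpt : ∀ x, W x * N x ≤ ((dd (1, 0) G₁ x + dd (0, 1) G₂ x) -
      β * (dd (1, 0) H₁ x - dd (0, 1) H₂ x) -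
      β * ((A₁ x * dd (0, 1) φ x - A₂ x * dd (1, 0) φ x) - b * φ x)) +
      (κ / 8 * (p x ^ 2 + q x ^ 2) + (36 / κ + 1) * ((dd (1, 0) q x - A₁ x * p x) ^ 2 +
        (dd (1, 0) p x + A₁ x * q x) ^ 2 + (dd (0, 1) q x - A₂ x * p x) ^ 2 +
        (dd (0, 1) p x + A₂ x * q x) ^ 2)) := by
    intro x
    have dV₁ := g.cV₁.differentiable (by simp) x
    have dV₂ := g.cV₂.differentiable (by simp) x
    have dj : ∀ v, DifferentiableAt ℝ (j v) x := fun v => (cj v).differentiable (by simp) x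
    have e1 : dd (1, 0) G₁ x = dd (1, 0) V₁ x * N x + V₁ x * dd (1, 0) N x := dd_mul dV₁ (dN x)
    have e2 : dd (0, 1) G₂ x = dd (0, 1) V₂ x * N x + V₂ x * dd (0, 1) N x := dd_mul dV₂ (dN x)
    have e3 : dd (1, 0) H₁ x = dd (1, 0) χ x * j (0, 1) x + χ x * dd (1, 0) (j (0, 1)) x :=
      dd_mul (dχ x) (dj _)
    have e4 : dd (0, 1) H₂ x = dd (0, 1) χ x * j (1, 0) x + χ x * dd (0, 1) (j (1, 0)) x :=
      dd_mul (dχ x) (dj _)
    have e5 : ∀ v, dd v φ x = dd v χ x * N x + χ x * dd v N x := fun v => dd_mul (dχ x) (dN x)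
    have s1 : dd (1, 0) (dd (0, 1) p) x = dd (0, 1) (dd (1, 0) p) x := dd_symm hp
    have s2 : dd (1, 0) (dd (0, 1) q) x = dd (0, 1) (dd (1, 0) q) x := dd_symm hq
    have hc₀ : |β * χ x| ≤ 1 := by
      rw [abs_mul, abs_of_pos hβ0]; nlinarith [g.bχ x, abs_nonneg (χ x)]
    have hc₁ : |β * dd (1, 0) χ x| ≤ 1 := by
      rw [abs_mul, abs_of_pos hβ0]; nlinarith [g.bχ₁ x]
    have hc₂ : |β * dd (0, 1) χ x| ≤ 1 := by
      rw [abs_mul, abs_of_pos hβ0]; nlinarith [g.bχ₂ x]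
    have pb := pointwise_bound (p := p x) (q := q x) (X₁ := dd (1, 0) q x - A₁ x * p x)
      (Y₁ := dd (1, 0) p x + A₁ x * q x) (X₂ := dd (0, 1) q x - A₂ x * p x)
      (Y₂ := dd (0, 1) p x + A₂ x * q x) (t := κ / 24) (s := 24 / κ) (g.bV₁ x) (g.bV₂ x) hc₀ hc₁ hc₂
      (by positivity) (by field_simp)
    have c1 : 3 * (κ / 24) = κ / 8 := by ring
    have c2 : 3 / 2 * (24 / κ) + 1 = 36 / κ + 1 := by ring
    rw [c1, c2] at pb
    refine le_trans (le_of_eq ?_) (add_le_add_right pb _)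
    rw [e1, e2, e3, e4, e5, e5, ej, ej, eN, eN, s1, s2]
    simp only [W, φ, j, N]
    linear_combination (-(χ x * (p x * p x + q x * q x))) * hβb
  have step2 := integral_split (ic (continuous_dd (v := (1, 0)) cG₁))
    (ic (continuous_dd (v := (0, 1)) cG₂)) (ic (continuous_dd (v := (1, 0)) cH₁))
    (ic (continuous_dd (v := (0, 1)) cH₂)) iJ (ic cφ.continuous) (mc hp.continuous).integrable_sq
    (mc hq.continuous).integrable_sq mX₁.integrable_sq mY₁.integrable_sq mX₂.integrable_sq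
    mY₂.integrable_sq iWN hpt
  rw [zG₁, zG₂, zH₁, zH₂, zJ] at step2
  refine step1.trans (step2.trans (le_of_eq ?_))
  unfold Q
  ring

end Pool.Agent.Lib.MP_d36e13_an
end

-- part Pool.Agent.Lib.MP_d36e13_an.Lower
section

open MeasureTheory Set Filter Topology Metric
open scoped ENNReal ContDiff

namespace Pool.Agent.Lib.MP_d36e13_an

theorem exists_ae_bound {μ : Measure (ℝ × ℝ)} {A : ℝ × ℝ → ℝ} (hA : MemLp A ⊤ μ) :
    ∃ B : ℝ, ∀ᵐ x ∂μ, A x ^ 2 ≤ B := by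
  have h := hA.2
  rw [eLpNorm_exponent_top] at h
  obtain ⟨C, hC⟩ := eLpNormEssSup_lt_top_iff_isBoundedUnder.1 h
  rw [eventually_map] at hC
  refine ⟨(C : ℝ) ^ 2, ?_⟩
  filter_upwards [hC] with x hx
  have : |A x| ≤ C := by
    have := NNReal.coe_le_coe.2 hx
    simpa using this
  rw [← sq_abs]
  exact pow_le_pow_left₀ (abs_nonneg _) this 2

theorem Q_comb {K : Set (ℝ × ℝ)} {A u v g h : ℝ × ℝ → ℝ} {B ε s : ℝ} (hs : s ^ 2 = 1) (hB0 : 0 ≤ B)
    (hA : MemLp A ⊤ (volume.restrict K)) (hB : ∀ᵐ x ∂(volume.restrict K), A x ^ 2 ≤ B)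
    (mu : MemLp u 2 (volume.restrict K)) (mv : MemLp v 2 (volume.restrict K))
    (mg : MemLp g 2 (volume.restrict K)) (mh : MemLp h 2 (volume.restrict K))
    (e1 : Q K (fun x => v x - u x) ≤ ε) (e2 : Q K (fun x => h x - g x) ≤ ε) :
    Q K (fun x => h x + s * (A x * v x)) ≤ 2 * Q K (fun x => g x + s * (A x * u x)) +
      (4 + 4 * B) * ε := by
  have m1 : MemLp (fun x => h x + s * (A x * v x)) 2 (volume.restrict K) :=
    mh.add ((memLp_mul_top hA mv).const_mul s)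
  have m2 : MemLp (fun x => g x + s * (A x * u x)) 2 (volume.restrict K) :=
    mg.add ((memLp_mul_top hA mu).const_mul s)
  have m3 : MemLp (fun x => v x - u x) 2 (volume.restrict K) := mv.sub mu
  have m4 : MemLp (fun x => h x - g x) 2 (volume.restrict K) := mh.sub mg
  have m5 : MemLp (fun x => (h x - g x) + s * (A x * (v x - u x))) 2 (volume.restrict K) :=
    m4.add ((memLp_mul_top hA m3).const_mul s)
  have h1 := Q_le m1 m2 m5 (a := 2) (c := 2) (Eventually.of_forall fun x => by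
    nlinarith [sq_nonneg ((g x + s * (A x * u x)) - ((h x - g x) + s * (A x * (v x - u x))))])
  have h2 := Q_le m5 m4 m3 (a := 2) (c := 2 * B) (by
    filter_upwards [hB] with x hx
    have : (s * (A x * (v x - u x))) ^ 2 ≤ B * (v x - u x) ^ 2 := by
      rw [mul_pow, hs, one_mul, mul_pow]
      exact mul_le_mul_of_nonneg_right hx (sq_nonneg _)
    nlinarith [sq_nonneg ((h x - g x) - s * (A x * (v x - u x)))])
  nlinarith [mul_le_mul_of_nonneg_left e1 hB0]

theorem Geom.weak_ineq {Ω D K K' : Set (ℝ × ℝ)} {V₁ V₂ χ : ℝ × ℝ → ℝ} {M κ : ℝ}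
    (g : Geom Ω D K K' V₁ V₂ χ M κ) {b : ℝ} (hb : 4 * (M + 1) ≤ b) {A₁ A₂ : ℝ × ℝ → ℝ}
    (hA₁ : MemLp A₁ ⊤ (volume.restrict Ω)) (hA₂ : MemLp A₂ ⊤ (volume.restrict Ω))
    (hc : ∀ φ, IsTest Ω φ →
      ∫ p in Ω, (A₁ p * dd (0, 1) φ p - A₂ p * dd (1, 0) φ p) = b * ∫ p in D, φ p)
    {p q a₁ a₂ b₁ b₂ : ℝ × ℝ → ℝ} (hp : WeakGrad Ω p a₁ a₂) (hq : WeakGrad Ω q b₁ b₂) :
    κ * (Q K' p + Q K' q) ≤ κ / 2 * (Q Ω p + Q Ω q) + 4 * (36 / κ + 1) *
      (Q Ω (fun x => b₁ x - A₁ x * p x) + Q Ω (fun x => a₁ x + A₁ x * q x) +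
       Q Ω (fun x => b₂ x - A₂ x * p x) + Q Ω (fun x => a₂ x + A₂ x * q x)) := by
  have hK := g.hK
  have hκ := g.hκ
  obtain ⟨B₁, hB₁⟩ := exists_ae_bound hA₁
  obtain ⟨B₂, hB₂⟩ := exists_ae_bound hA₂
  set B := max (max B₁ B₂) 0 with hB
  have hB0 : 0 ≤ B := le_max_right _ _
  have hB₁' : ∀ᵐ x ∂(volume.restrict K), A₁ x ^ 2 ≤ B := by
    filter_upwards [ae_restrict_of_ae_restrict_of_subset g.hKΩ hB₁] with x hx
    exact hx.trans ((le_max_left _ _).trans (le_max_left _ _))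
  have hB₂' : ∀ᵐ x ∂(volume.restrict K), A₂ x ^ 2 ≤ B := by
    filter_upwards [ae_restrict_of_ae_restrict_of_subset g.hKΩ hB₂] with x hx
    exact hx.trans ((le_max_right _ _).trans (le_max_left _ _))
  set C := 36 / κ + 1 with hC
  have hC0 : 0 < C := by positivity
  have hA₁K := memLp_sub g.hKΩ hA₁
  have hA₂K := memLp_sub g.hKΩ hA₂
  have mc : ∀ {f : ℝ × ℝ → ℝ}, Continuous f → MemLp f 2 (volume.restrict K) := fun hf =>
    memLp_on_compact hK hf 2
  have mp := memLp_sub g.hKΩ hp.mu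
  have mq := memLp_sub g.hKΩ hq.mu
  have mX₁ : MemLp (fun x => b₁ x - A₁ x * p x) 2 (volume.restrict Ω) :=
    hq.m₁.sub (memLp_mul_top hA₁ hp.mu)
  have mY₁ : MemLp (fun x => a₁ x + A₁ x * q x) 2 (volume.restrict Ω) :=
    hp.m₁.add (memLp_mul_top hA₁ hq.mu)
  have mX₂ : MemLp (fun x => b₂ x - A₂ x * p x) 2 (volume.restrict Ω) :=
    hq.m₂.sub (memLp_mul_top hA₂ hp.mu)
  have mY₂ : MemLp (fun x => a₂ x + A₂ x * q x) 2 (volume.restrict Ω) :=
    hp.m₂.add (memLp_mul_top hA₂ hq.mu)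
  have k1 := Q_mono g.hKΩ mX₁
  have k2 := Q_mono g.hKΩ mY₁
  have k3 := Q_mono g.hKΩ mX₂
  have k4 := Q_mono g.hKΩ mY₂
  have k5 := Q_mono g.hKΩ hp.mu
  have k6 := Q_mono g.hKΩ hq.mu
  set T := 5 * κ + 8 * C * (4 + 4 * B) with hT
  have hT0 : 0 < T := by positivity
  refine le_of_forall_pos_le_add fun δ hδ => ?_
  have hε : 0 < δ / T := by positivity
  set ε := δ / T with hεdef
  have hTε : T * ε = δ := by rw [hεdef]; field_simp
  obtain ⟨P', cP, eP, eP₁, eP₂⟩ := hp.approx g.hΩ hK g.hKΩ hε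
  obtain ⟨Q', cQ, eQ, eQ₁, eQ₂⟩ := hq.approx g.hΩ hK g.hKΩ hε
  have S := g.smooth_ineq hb hA₁ hA₂ hc cP cQ
  have mP := mc cP.continuous
  have mQ := mc cQ.continuous
  have cdP : ∀ v, MemLp (dd v P') 2 (volume.restrict K) := fun v =>
    mc (contDiff_dd_top cP).continuous
  have cdQ : ∀ v, MemLp (dd v Q') 2 (volume.restrict K) := fun v =>
    mc (contDiff_dd_top cQ).continuous
  have t1 := Q_comb (s := -1) (by norm_num) hB0 hA₁K hB₁' mp mP (memLp_sub g.hKΩ hq.m₁) (cdQ _) eP eQ₁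
  have t2 := Q_comb (s := 1) (by norm_num) hB0 hA₁K hB₁' mq mQ (memLp_sub g.hKΩ hp.m₁) (cdP _) eQ eP₁
  have t3 := Q_comb (s := -1) (by norm_num) hB0 hA₂K hB₂' mp mP (memLp_sub g.hKΩ hq.m₂) (cdQ _) eP eQ₂
  have t4 := Q_comb (s := 1) (by norm_num) hB0 hA₂K hB₂' mq mQ (memLp_sub g.hKΩ hp.m₂) (cdP _) eQ eP₂
  simp only [neg_mul, one_mul, ← sub_eq_add_neg] at t1 t2 t3 t4
  have dP : MemLp (fun x => P' x - p x) 2 (volume.restrict K) := mP.sub mp
  have dQ : MemLp (fun x => Q' x - q x) 2 (volume.restrict K) := mQ.sub mq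
  have eP' : Q K (fun x => P' x - p x) ≤ ε := eP
  have eQ' : Q K (fun x => Q' x - q x) ≤ ε := eQ
  have u1 := Q_le mP mp dP (a := 2) (c := 2) (Eventually.of_forall fun x => by
    nlinarith [sq_nonneg (p x - (P' x - p x))])
  have u2 := Q_le mQ mq dQ (a := 2) (c := 2) (Eventually.of_forall fun x => by
    nlinarith [sq_nonneg (q x - (Q' x - q x))])
  have u3 := Q_le (memLp_sub g.hK'K mp) (memLp_sub g.hK'K mP) (memLp_sub g.hK'K dP)
    (a := 2) (c := 2) (Eventually.of_forall fun x => by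
      nlinarith [sq_nonneg (P' x + (P' x - p x))])
  have u4 := Q_le (memLp_sub g.hK'K mq) (memLp_sub g.hK'K mQ) (memLp_sub g.hK'K dQ)
    (a := 2) (c := 2) (Eventually.of_forall fun x => by
      nlinarith [sq_nonneg (Q' x + (Q' x - q x))])
  have u5 := Q_mono g.hK'K dP
  have u6 := Q_mono g.hK'K dQ
  have v1 : κ * (Q K' p + Q K' q) ≤ κ * (2 * (Q K' P' + Q K' Q') + 4 * ε) :=
    mul_le_mul_of_nonneg_left (by linarith) hκ.le
  have v2 : κ / 8 * (Q K P' + Q K Q') ≤ κ / 8 * (2 * (Q Ω p + Q Ω q) + 4 * ε) :=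
    mul_le_mul_of_nonneg_left (by linarith) (by positivity)
  have v3 : C * (Q K (fun x => dd (1, 0) Q' x - A₁ x * P' x) +
      Q K (fun x => dd (1, 0) P' x + A₁ x * Q' x) + Q K (fun x => dd (0, 1) Q' x - A₂ x * P' x) +
      Q K (fun x => dd (0, 1) P' x + A₂ x * Q' x)) ≤ C * (2 * (Q Ω (fun x => b₁ x - A₁ x * p x) +
        Q Ω (fun x => a₁ x + A₁ x * q x) + Q Ω (fun x => b₂ x - A₂ x * p x) +
        Q Ω (fun x => a₂ x + A₂ x * q x)) + 4 * ((4 + 4 * B) * ε)) :=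
    mul_le_mul_of_nonneg_left (by linarith) hC0.le
  rw [← hTε, hT]
  rw [← hC] at S
  linarith

/-- real and imaginary parts of an `H^1` function -/
theorem IsH1.weakGrad {Ω : Set (ℝ × ℝ)} {u g₁ g₂ : ℝ × ℝ → ℂ} (h : IsH1 Ω u g₁ g₂)
    (L : ℂ →L[ℝ] ℝ) :
    WeakGrad Ω (fun x => L (u x)) (fun x => L (g₁ x)) (fun x => L (g₂ x)) := by
  have key : ∀ {f : ℝ × ℝ → ℂ} {ψ : ℝ × ℝ → ℝ}, MemLp f 2 (volume.restrict Ω) → Continuous ψ →
      HasCompactSupport ψ → ∫ p in Ω, L (f p) * ψ p = L (∫ p in Ω, f p * (ψ p : ℂ)) := by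
    intro f ψ hf hψ hc
    have h1 : MemLp (fun p => (ψ p : ℂ)) 2 (volume.restrict Ω) :=
      ((hψ.memLp_of_hasCompactSupport (p := 2) (μ := volume) hc).restrict Ω).ofReal
    have hi : Integrable (fun p => f p * (ψ p : ℂ)) (volume.restrict Ω) := hf.integrable_mul h1
    rw [← L.integral_comp_comm hi]
    refine integral_congr_ae (Eventually.of_forall fun p => ?_)
    have : f p * (ψ p : ℂ) = ψ p • f p := by rw [mul_comm]; rfl
    simp only [this, map_smul, smul_eq_mul, mul_comm]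
  refine ⟨L.comp_memLp' h.memLp_u, L.comp_memLp' h.memLp_g₁, L.comp_memLp' h.memLp_g₂,
    fun φ hφ => ?_, fun φ hφ => ?_⟩
  · have c1 : ContDiff ℝ 1 φ := hφ.1.of_le top_one
    rw [key h.memLp_u (continuous_dd c1) (hasCompactSupport_dd hφ.2.1),
      key h.memLp_g₁ c1.continuous hφ.2.1, ← map_neg, ← h.weak₁ φ hφ]
    rfl
  · have c1 : ContDiff ℝ 1 φ := hφ.1.of_le top_one
    rw [key h.memLp_u (continuous_dd c1) (hasCompactSupport_dd hφ.2.1),
      key h.memLp_g₂ c1.continuous hφ.2.1, ← map_neg, ← h.weak₂ φ hφ]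
    rfl

theorem lintegral_two {Ω : Set (ℝ × ℝ)} {F : ℝ × ℝ → ℂ} {X Y : ℝ × ℝ → ℝ}
    (mX : MemLp X 2 (volume.restrict Ω)) (mY : MemLp Y 2 (volume.restrict Ω))
    (h : ∀ x, ‖F x‖ ^ 2 = X x ^ 2 + Y x ^ 2) :
    ∫⁻ p in Ω, ‖F p‖ₑ ^ 2 = ENNReal.ofReal (Q Ω X + Q Ω Y) := by
  unfold Q
  have hi : Integrable (fun x => X x ^ 2 + Y x ^ 2) (volume.restrict Ω) :=
    mX.integrable_sq.add mY.integrable_sq
  rw [← integral_add mX.integrable_sq mY.integrable_sq,
    ofReal_integral_eq_lintegral_ofReal hi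
      (Eventually.of_forall fun x => add_nonneg (sq_nonneg _) (sq_nonneg _))]
  refine lintegral_congr fun x => ?_
  rw [← ofReal_norm, ← ENNReal.ofReal_pow (norm_nonneg _), h]

theorem energy_eq {Ω : Set (ℝ × ℝ)} {u g₁ g₂ : ℝ × ℝ → ℂ} (h : IsH1 Ω u g₁ g₂)
    {A₁ A₂ : ℝ × ℝ → ℝ} (hA₁ : MemLp A₁ ⊤ (volume.restrict Ω))
    (hA₂ : MemLp A₂ ⊤ (volume.restrict Ω)) :
    (∫⁻ p in Ω, (‖-Complex.I * g₁ p - (A₁ p : ℂ) * u p‖ₑ ^ 2 +
      ‖-Complex.I * g₂ p - (A₂ p : ℂ) * u p‖ₑ ^ 2)) = ENNReal.ofReal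
      (Q Ω (fun x => (g₁ x).im - A₁ x * (u x).re) + Q Ω (fun x => (g₁ x).re + A₁ x * (u x).im) +
       Q Ω (fun x => (g₂ x).im - A₂ x * (u x).re) + Q Ω (fun x => (g₂ x).re + A₂ x * (u x).im)) ∧
    ∫⁻ p in Ω, ‖u p‖ₑ ^ 2 = ENNReal.ofReal (Q Ω (fun x => (u x).re) + Q Ω (fun x => (u x).im)) := by
  have hp := h.weakGrad Complex.reCLM
  have hq := h.weakGrad Complex.imCLM
  simp only [Complex.reCLM_apply, Complex.imCLM_apply] at hp hq
  have mX₁ : MemLp (fun x => (g₁ x).im - A₁ x * (u x).re) 2 (volume.restrict Ω) :=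
    hq.m₁.sub (memLp_mul_top hA₁ hp.mu)
  have mY₁ : MemLp (fun x => (g₁ x).re + A₁ x * (u x).im) 2 (volume.restrict Ω) :=
    hp.m₁.add (memLp_mul_top hA₁ hq.mu)
  have mX₂ : MemLp (fun x => (g₂ x).im - A₂ x * (u x).re) 2 (volume.restrict Ω) :=
    hq.m₂.sub (memLp_mul_top hA₂ hp.mu)
  have mY₂ : MemLp (fun x => (g₂ x).re + A₂ x * (u x).im) 2 (volume.restrict Ω) :=
    hp.m₂.add (memLp_mul_top hA₂ hq.mu)
  have nrm : ∀ (g w : ℂ) (a : ℝ), ‖-Complex.I * g - (a : ℂ) * w‖ ^ 2 =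
      (g.im - a * w.re) ^ 2 + (g.re + a * w.im) ^ 2 := by
    intro g w a
    rw [Complex.sq_norm, Complex.normSq_apply]
    simp
    ring
  have e1 := lintegral_two (F := fun p => -Complex.I * g₁ p - (A₁ p : ℂ) * u p) mX₁ mY₁
    (fun x => nrm _ _ _)
  have e2 := lintegral_two (F := fun p => -Complex.I * g₂ p - (A₂ p : ℂ) * u p) mX₂ mY₂
    (fun x => nrm _ _ _)
  refine ⟨?_, lintegral_two hp.mu hq.mu fun x => ?_⟩
  · rw [lintegral_add_left', e1, e2, ← ENNReal.ofReal_add (add_nonneg (Q_nonneg _ _) (Q_nonneg _ _))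
      (add_nonneg (Q_nonneg _ _) (Q_nonneg _ _)), add_assoc (_ + _)]
    have m : AEStronglyMeasurable (fun p => -Complex.I * g₁ p - (A₁ p : ℂ) * u p)
        (volume.restrict Ω) :=
      (h.memLp_g₁.1.const_mul _).sub
        ((Complex.continuous_ofReal.comp_aestronglyMeasurable hA₁.1).mul h.memLp_u.1)
    exact m.enorm.pow_const 2
  · rw [Complex.sq_norm, Complex.normSq_apply]; ring

/-- abstract lower bound -/
theorem lam_ge {Ω D : Set (ℝ × ℝ)} {M κ b : ℝ} (hκ : 0 < κ) (hb : 4 * (M + 1) ≤ b)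
    {K' : ℕ → Set (ℝ × ℝ)} (hmono : Monotone K') (hU : ⋃ n, K' n = Ω)
    (hg : ∀ n, ∃ K V₁ V₂ χ, Geom Ω D K (K' n) V₁ V₂ χ M κ) {A₁ A₂ : ℝ × ℝ → ℝ}
    (hA₁ : MemLp A₁ ⊤ (volume.restrict Ω)) (hA₂ : MemLp A₂ ⊤ (volume.restrict Ω))
    (hc : ∀ φ, IsTest Ω φ →
      ∫ p in Ω, (A₁ p * dd (0, 1) φ p - A₂ p * dd (1, 0) φ p) = b * ∫ p in D, φ p) :
    ENNReal.ofReal (κ / (8 * (36 / κ + 1))) ≤ lam Ω A₁ A₂ := by
  unfold lam
  refine le_iInf fun u => le_iInf fun g₁ => le_iInf fun g₂ => le_iInf fun h => le_iInf fun h0 => ?_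
  obtain ⟨e1, e2⟩ := energy_eq h hA₁ hA₂
  have hp := h.weakGrad Complex.reCLM
  have hq := h.weakGrad Complex.imCLM
  simp only [Complex.reCLM_apply, Complex.imCLM_apply] at hp hq
  have hmeas : ∀ n, MeasurableSet (K' n) := fun n => by
    obtain ⟨K, V₁, V₂, χ, g⟩ := hg n
    exact g.hK'
  have lim : ∀ {f : ℝ × ℝ → ℝ}, MemLp f 2 (volume.restrict Ω) →
      Tendsto (fun n => Q (K' n) f) atTop (𝓝 (Q Ω f)) := by
    intro f hf
    have := tendsto_setIntegral_of_monotone (μ := volume) (f := fun x => f x ^ 2) hmeas hmono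
      (by rw [hU]; exact hf.integrable_sq)
    rw [hU] at this
    exact this
  have hle := le_of_tendsto' (((lim hp.mu).add (lim hq.mu)).const_mul κ) (fun n => by
    obtain ⟨K, V₁, V₂, χ, g⟩ := hg n
    exact g.weak_ineq hb hA₁ hA₂ hc hp hq)
  rw [e2] at h0
  rw [e1, e2, ENNReal.le_div_iff_mul_le (Or.inl h0) (Or.inl ENNReal.ofReal_ne_top),
    ← ENNReal.ofReal_mul (by positivity)]
  apply ENNReal.ofReal_le_ofReal
  rw [div_mul_eq_mul_div, div_le_iff₀ (by positivity)]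
  linarith

end Pool.Agent.Lib.MP_d36e13_an
end

-- part Pool.Agent.Lib.MP_d36e13_an.Geometry
section

open MeasureTheory Set Filter Topology Metric
open scoped ENNReal ContDiff Manifold

namespace Pool.Agent.Lib.MP_d36e13_an

noncomputable def sf (L x : ℝ) : ℝ := P (x - L) - P (-x - L)

noncomputable def tau (L x : ℝ) : ℝ := max (|x| - L) 0

noncomputable def rho (L : ℝ) (p : ℝ × ℝ) : ℝ := sf L p.1 * sf L p.1 + p.2 * p.2

/-- the stadium-like domains -/
def dom (L c : ℝ) : Set (ℝ × ℝ) := {p | rho L p < c}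

variable {L : ℝ}

theorem tau_nonneg (x : ℝ) : 0 ≤ tau L x := le_max_right _ _

theorem tau_eq (hL : 0 ≤ L) (x : ℝ) : max (x - L) 0 + max (-x - L) 0 = tau L x := by
  unfold tau
  rcases le_total 0 x with h | h
  · rw [abs_of_nonneg h, max_eq_right (a := -x - L) (by linarith), add_zero]
  · rw [abs_of_nonpos h, max_eq_right (a := x - L) (by linarith), zero_add]

theorem sf_sq (hL : 0 ≤ L) (x : ℝ) : sf L x * sf L x = tau L x ^ 4 := by
  unfold sf P tau
  rcases le_total 0 x with h | h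
  · rw [abs_of_nonneg h, max_eq_right (a := -x - L) (by linarith)]; ring
  · rw [abs_of_nonpos h, max_eq_right (a := x - L) (by linarith)]; ring

theorem hasDerivAt_sf (hL : 0 ≤ L) (x : ℝ) : HasDerivAt (sf L) (2 * tau L x) x := by
  have h1 : HasDerivAt (fun x => P (x - L)) (2 * max (x - L) 0 * 1) x :=
    HasDerivAt.comp (h := fun x => x - L) x (hasDerivAt_P (x - L)) ((hasDerivAt_id x).sub_const L)
  have h2 : HasDerivAt (fun x => P (-x - L)) (2 * max (-x - L) 0 * (-1)) x :=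
    HasDerivAt.comp (h := fun x => -x - L) x (hasDerivAt_P (-x - L)) ((hasDerivAt_neg x).sub_const L)
  have e : 2 * tau L x = 2 * max (x - L) 0 * 1 - 2 * max (-x - L) 0 * (-1) := by
    rw [← tau_eq hL]; ring
  rw [e]
  exact h1.sub h2

theorem contDiff_sf : ContDiff ℝ 1 (sf L) :=
  (contDiff_P.comp (contDiff_id.sub contDiff_const)).sub
    (contDiff_P.comp (contDiff_neg.sub contDiff_const))

theorem contDiff_sf1 : ContDiff ℝ 1 (fun p : ℝ × ℝ => sf L p.1) := contDiff_sf.comp contDiff_fst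

theorem contDiff_rho : ContDiff ℝ 1 (rho L) :=
  (contDiff_sf1.mul contDiff_sf1).add (contDiff_snd.mul contDiff_snd)

theorem rho_eq (hL : 0 ≤ L) (p : ℝ × ℝ) : rho L p = tau L p.1 ^ 4 + p.2 ^ 2 := by
  unfold rho; rw [sf_sq hL]; ring

theorem rho_nonneg (p : ℝ × ℝ) : 0 ≤ rho L p :=
  add_nonneg (mul_self_nonneg _) (mul_self_nonneg _)

theorem dd_fst (v p : ℝ × ℝ) : dd v (fun p : ℝ × ℝ => p.1) p = v.1 :=
  dd_of_hasFDerivAt hasFDerivAt_fst

theorem dd_snd (v p : ℝ × ℝ) : dd v (fun p : ℝ × ℝ => p.2) p = v.2 :=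
  dd_of_hasFDerivAt hasFDerivAt_snd

theorem dd_sf1 (hL : 0 ≤ L) (v p : ℝ × ℝ) :
    dd v (fun p : ℝ × ℝ => sf L p.1) p = 2 * tau L p.1 * v.1 := by
  rw [dd_comp (f := fun p : ℝ × ℝ => p.1) (hasDerivAt_sf hL p.1) differentiableAt_fst, dd_fst]

theorem dd_rho (hL : 0 ≤ L) (v p : ℝ × ℝ) :
    dd v (rho L) p = 4 * sf L p.1 * tau L p.1 * v.1 + 2 * p.2 * v.2 := by
  have d1 : DifferentiableAt ℝ (fun p : ℝ × ℝ => sf L p.1) p :=
    contDiff_sf1.differentiable (by simp) p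
  have d2 : DifferentiableAt ℝ (fun p : ℝ × ℝ => p.2) p := differentiableAt_snd
  have e : rho L = fun p : ℝ × ℝ => sf L p.1 * sf L p.1 + p.2 * p.2 := rfl
  rw [e, dd_add (d1.fun_mul d1) (d2.fun_mul d2), dd_mul d1 d1, dd_mul d2 d2, dd_sf1 hL, dd_snd]
  ring

theorem tau_le_one (hL : 0 ≤ L) {p : ℝ × ℝ} (h : rho L p ≤ 1) : tau L p.1 ≤ 1 := by
  rw [rho_eq hL] at h
  by_contra h1
  have h1 : 1 < tau L p.1 := not_le.1 h1
  have : 1 < tau L p.1 ^ 4 := one_lt_pow₀ h1 (by norm_num)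
  nlinarith [sq_nonneg p.2]

theorem sub_rect (hL : 0 ≤ L) {c d : ℝ} (hc : c ≤ 1) (hd : 0 ≤ d) (hcd : c ≤ d ^ 2) :
    {p | rho L p ≤ c} ⊆ Icc (-(L + 1)) (L + 1) ×ˢ Icc (-d) d := by
  intro p hp
  have hp : rho L p ≤ c := hp
  have h1 := tau_le_one hL (hp.trans hc)
  have h2 : |p.1| - L ≤ tau L p.1 := le_max_left _ _
  rw [rho_eq hL] at hp
  have h3 : p.2 ^ 2 ≤ d ^ 2 := by nlinarith [pow_nonneg (tau_nonneg (L := L) p.1) 4]
  refine ⟨abs_le.1 (by linarith), abs_le.1 (abs_le_of_sq_le_sq h3 hd)⟩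

theorem isCompact_le (hL : 0 ≤ L) {c : ℝ} (hc : c ≤ 1) : IsCompact {p | rho L p ≤ c} :=
  (isCompact_Icc.prod isCompact_Icc).of_isClosed_subset
    (isClosed_le contDiff_rho.continuous continuous_const) (sub_rect hL hc zero_le_one (by simpa))

theorem isOpen_dom {c : ℝ} : IsOpen (dom L c) := isOpen_lt contDiff_rho.continuous continuous_const

theorem isC1Domain_dom (hL : 0 ≤ L) {c : ℝ} (hc0 : 0 < c) (hc : c ≤ 1) : IsC1Domain (dom L c) := by
  have h0 : (0 : ℝ × ℝ) ∈ dom L c := by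
    change rho L 0 < c
    rw [rho_eq hL]
    simp [tau, hL, hc0]
  refine ⟨isOpen_dom, (isCompact_le hL hc).isBounded.subset fun p hp => show rho L p ≤ c from le_of_lt hp, ?_, ?_⟩
  · have hs : StarConvex ℝ 0 (dom L c) := by
      intro p hp a b ha hb hab
      change rho L _ < c
      refine lt_of_le_of_lt ?_ hp
      rw [rho_eq hL, rho_eq hL]
      simp only [smul_zero, zero_add, Prod.smul_fst, Prod.smul_snd, smul_eq_mul]
      have hb1 : b ≤ 1 := by linarith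
      have t1 : tau L (b * p.1) ≤ tau L p.1 := by
        unfold tau
        apply max_le_max_right
        rw [abs_mul, abs_of_nonneg hb]
        nlinarith [abs_nonneg p.1]
      have t2 : (b * p.2) ^ 2 ≤ p.2 ^ 2 := by
        rw [mul_pow]
        nlinarith [sq_nonneg p.2, mul_le_mul hb1 hb1 hb zero_le_one]
      have t3 := pow_le_pow_left₀ (tau_nonneg _) t1 4
      linarith
    have := hs.contractibleSpace ⟨0, h0⟩
    exact SimplyConnectedSpace.ofContractible _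
  · intro p hp
    have hp' : rho L p = c := frontier_lt_subset_eq contDiff_rho.continuous continuous_const hp
    refine ⟨univ, fun q => rho L q - c, isOpen_univ, mem_univ _,
      (contDiff_rho.sub contDiff_const).contDiffOn, by simp [hp'], ?_, ?_⟩
    · rw [fderiv_sub_const]
      intro h
      have e1 := dd_rho hL (1, 0) p
      have e2 := dd_rho hL (0, 1) p
      unfold dd at e1 e2
      rw [h] at e1 e2
      simp only [zero_apply, mul_one, mul_zero, add_zero, zero_add] at e1 e2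
      have h2 : p.2 = 0 := by linarith
      have h3 : sf L p.1 * tau L p.1 = 0 := by linarith
      have h4 : tau L p.1 ^ 4 = 0 := by
        rcases mul_eq_zero.1 h3 with h | h
        · rw [← sf_sq hL, h, mul_zero]
        · rw [h]; norm_num
      rw [rho_eq hL, h2, h4] at hp'
      linarith
    · ext q
      simp [dom]

theorem closure_dom_subset {c c' : ℝ} (h : c < c') : closure (dom L c) ⊆ dom L c' := by
  refine (closure_minimal (t := {p | rho L p ≤ c}) (fun p hp => show rho L p ≤ c from le_of_lt hp)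
    (isClosed_le contDiff_rho.continuous continuous_const)).trans fun p hp => ?_
  exact lt_of_le_of_lt (show rho L p ≤ c from hp) h

theorem exists_chi (hL : 0 ≤ L) : ∃ (χ : ℝ × ℝ → ℝ) (M : ℝ), ContDiff ℝ ∞ χ ∧
    tsupport χ ⊆ {p | rho L p ≤ 1 / 30} ∧ (∀ p, 0 ≤ χ p ∧ χ p ≤ 1) ∧
    (∀ p, rho L p ≤ 1 / 50 → χ p = 1) ∧ 0 ≤ M ∧ (∀ p, |dd (1, 0) χ p| ≤ M) ∧
    (∀ p, |dd (0, 1) χ p| ≤ M) := by
  have hc := (contDiff_rho (L := L)).continuous
  obtain ⟨f, f0, f1, fI⟩ := exists_contMDiffMap_zero_one_of_isClosed (n := ⊤) 𝓘(ℝ, ℝ × ℝ)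
    (s := {p | 1 / 30 ≤ rho L p}) (t := {p | rho L p ≤ 1 / 50})
    (isClosed_le continuous_const hc) (isClosed_le hc continuous_const) (by
      rw [Set.disjoint_left]
      intro p h1 h2
      simp only [mem_ofPred_eq] at h1 h2
      linarith)
  have cf : ContDiff ℝ ∞ (f : ℝ × ℝ → ℝ) := f.contMDiff.contDiff
  have hs : tsupport (f : ℝ × ℝ → ℝ) ⊆ {p | rho L p ≤ 1 / 30} := by
    refine closure_minimal (fun p hp => ?_) (isClosed_le hc continuous_const)
    by_contra h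
    exact hp (f0 (show 1 / 30 ≤ rho L p from le_of_lt (not_le.1 h)))
  have hcs : HasCompactSupport (f : ℝ × ℝ → ℝ) :=
    (isCompact_le hL (by norm_num)).of_isClosed_subset (isClosed_tsupport _) hs
  have c1 : ContDiff ℝ 1 (f : ℝ × ℝ → ℝ) := cf.of_le top_one
  obtain ⟨M₁, hM₁⟩ := (continuous_dd (v := (1, 0)) c1).bounded_above_of_compact_support
    (hasCompactSupport_dd hcs)
  obtain ⟨M₂, hM₂⟩ := (continuous_dd (v := (0, 1)) c1).bounded_above_of_compact_support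
    (hasCompactSupport_dd hcs)
  refine ⟨f, max M₁ M₂, cf, hs, fun p => fI p, fun p hp => f1 hp,
    (norm_nonneg _).trans ((hM₁ 0).trans (le_max_left _ _)),
    fun p => (hM₁ p).trans (le_max_left _ _), fun p => (hM₂ p).trans (le_max_right _ _)⟩

/-- the radial weight -/
noncomputable def wt (δ r : ℝ) : ℝ :=
  Real.exp (-400 * r) * Real.smoothTransition ((1 - δ - r) / δ)

theorem contDiff_wt (δ : ℝ) : ContDiff ℝ 1 (wt δ) := by
  unfold wt
  refine (Real.contDiff_exp.comp (contDiff_const.mul contDiff_id)).mul ?_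
  exact Real.smoothTransition.contDiff.comp ((contDiff_const.sub contDiff_id).div_const δ)

theorem wt_deriv {δ : ℝ} (hδ : 0 < δ) (r : ℝ) :
    ∃ w', HasDerivAt (wt δ) w' r ∧ 400 * wt δ r ≤ -w' := by
  have h1 : HasDerivAt (fun r => Real.exp (-400 * r)) (Real.exp (-400 * r) * (-400 * 1)) r :=
    ((hasDerivAt_id r).const_mul (-400)).exp
  have h2 : HasDerivAt Real.smoothTransition (deriv Real.smoothTransition ((1 - δ - r) / δ))
      ((1 - δ - r) / δ) :=
    ((Real.smoothTransition.contDiff (n := 1)).differentiable (by simp) _).hasDerivAt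
  have h3 : HasDerivAt (fun r => (1 - δ - r) / δ) ((-1) / δ) r :=
    ((hasDerivAt_id r).const_sub (1 - δ)).div_const δ
  have h4 := h1.mul (h2.comp r h3)
  refine ⟨_, h4, ?_⟩
  have h5 : 0 ≤ deriv Real.smoothTransition ((1 - δ - r) / δ) :=
    Real.smoothTransition.monotone.deriv_nonneg
  have h6 : 0 ≤ Real.exp (-400 * r) * (deriv Real.smoothTransition ((1 - δ - r) / δ) * (1 / δ)) := by
    positivity
  simp only [wt, Function.comp]
  have : -1 / δ = -(1 / δ) := by ring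
  rw [this]
  nlinarith

theorem wt_nonneg (δ r : ℝ) : 0 ≤ wt δ r :=
  mul_nonneg (Real.exp_pos _).le (Real.smoothTransition.nonneg _)

theorem wt_le_one (δ : ℝ) {r : ℝ} (hr : 0 ≤ r) : wt δ r ≤ 1 :=
  mul_le_one₀ (Real.exp_le_one_iff.2 (by linarith)) (Real.smoothTransition.nonneg _)
    (Real.smoothTransition.le_one _)

theorem wt_eq_zero {δ r : ℝ} (hδ : 0 < δ) (hr : 1 - δ ≤ r) : wt δ r = 0 := by
  unfold wt
  rw [Real.smoothTransition.zero_of_nonpos (div_nonpos_of_nonpos_of_nonneg (by linarith) hδ.le),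
    mul_zero]

theorem wt_ge {δ r : ℝ} (hδ : 0 < δ) (hr : r ≤ 1 - 2 * δ) : Real.exp (-400) ≤ wt δ r := by
  unfold wt
  rw [Real.smoothTransition.one_of_one_le (by rw [le_div_iff₀ hδ]; linarith), mul_one]
  exact Real.exp_le_exp.2 (by linarith)

theorem key_poly {t y : ℝ} (ht : 0 ≤ t) (h : 1 / 50 ≤ t ^ 4 + y ^ 2) :
    1 / 100 ≤ 4 * t ^ 5 + 2 * y ^ 2 := by
  by_cases h1 : 1 / 200 ≤ y ^ 2
  · have := pow_nonneg ht 5
    linarith
  · have h2 : 3 / 200 ≤ t ^ 4 := by linarith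
    have h3 : 1 / 4 ≤ t := by
      by_contra h3
      have h3 : t ≤ 1 / 4 := le_of_lt (not_le.1 h3)
      have := pow_le_pow_left₀ ht h3 4
      linarith
    have : t ^ 5 = t ^ 4 * t := by ring
    nlinarith [sq_nonneg y]

theorem geom (hL : 0 ≤ L) {χ : ℝ × ℝ → ℝ} {M : ℝ} (cχ : ContDiff ℝ ∞ χ)
    (sχ : tsupport χ ⊆ {p | rho L p ≤ 1 / 30}) (bχ : ∀ p, 0 ≤ χ p ∧ χ p ≤ 1)
    (oχ : ∀ p, rho L p ≤ 1 / 50 → χ p = 1) (hM : 0 ≤ M) (b₁ : ∀ p, |dd (1, 0) χ p| ≤ M)
    (b₂ : ∀ p, |dd (0, 1) χ p| ≤ M) {δ : ℝ} (hδ : 0 < δ) (hδ1 : δ ≤ 1 / 2) :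
    Geom (dom L 1) (dom L (1 / 25)) {p | rho L p ≤ 1 - δ} {p | rho L p ≤ 1 - 2 * δ}
      (fun p => -(wt δ (rho L p)) * sf L p.1) (fun p => -(wt δ (rho L p)) * p.2) χ M
      (Real.exp (-400)) := by
  have hc := (contDiff_rho (L := L)).continuous
  have cw : ContDiff ℝ 1 (fun p => -(wt δ (rho L p))) := ((contDiff_wt δ).comp contDiff_rho).neg
  have supp : ∀ g : ℝ × ℝ → ℝ,
      tsupport (fun p => -(wt δ (rho L p)) * g p) ⊆ {p | rho L p ≤ 1 - δ} := by
    intro g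
    refine closure_minimal (fun p hp => ?_) (isClosed_le hc continuous_const)
    by_contra h
    apply hp
    simp [wt_eq_zero hδ (le_of_lt (not_le.1 h))]
  have bnd : ∀ (p : ℝ × ℝ) (a : ℝ), a * a ≤ rho L p → |-(wt δ (rho L p)) * a| ≤ 1 := by
    intro p a ha
    by_cases h : rho L p ≤ 1
    · rw [abs_mul, abs_neg, abs_of_nonneg (wt_nonneg _ _)]
      have : |a| ≤ 1 := abs_le_one_iff_mul_self_le_one.2 (ha.trans h)
      exact mul_le_one₀ (wt_le_one _ (rho_nonneg p)) (abs_nonneg _) this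
    · rw [wt_eq_zero hδ (by linarith [not_le.1 h])]; simp
  have main : ∀ p, rho L p ≤ 1 → wt δ (rho L p) ≤
      dd (1, 0) (fun p => -(wt δ (rho L p)) * sf L p.1) p +
      dd (0, 1) (fun p => -(wt δ (rho L p)) * p.2) p + 4 * χ p := by
    intro p hp
    obtain ⟨w', hw, hw'⟩ := wt_deriv hδ (rho L p)
    have dr : DifferentiableAt ℝ (rho L) p := contDiff_rho.differentiable (by simp) p
    have dw : DifferentiableAt ℝ (fun p => -(wt δ (rho L p))) p := cw.differentiable (by simp) p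
    have ew : ∀ v, dd v (fun p => -(wt δ (rho L p))) p = -w' * dd v (rho L) p := fun v =>
      dd_comp (h := fun r => -(wt δ r)) hw.neg dr
    rw [dd_mul dw (contDiff_sf1.differentiable (by simp) p), dd_mul dw differentiableAt_snd,
      ew, ew, dd_rho hL, dd_rho hL, dd_sf1 hL, dd_snd]
    simp only [mul_one, mul_zero, add_zero, zero_add]
    have ht1 := tau_le_one hL hp
    have ht0 := tau_nonneg (L := L) p.1
    have hw0 := wt_nonneg δ (rho L p)
    have hw1 := wt_le_one δ (rho_nonneg (L := L) p)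
    set w := wt δ (rho L p)
    set t := tau L p.1
    have e : -w' * (4 * sf L p.1 * t) * sf L p.1 + -w * (2 * t) + (-w' * (2 * p.2) * p.2 + -w)
        = -w' * (4 * t ^ 5 + 2 * p.2 ^ 2) - w * (2 * t + 1) := by
      have := sf_sq hL p.1
      linear_combination (-w' * 4 * t) * this
    rw [e]
    have hz : 0 ≤ 4 * t ^ 5 + 2 * p.2 ^ 2 := by positivity
    have h1 : 400 * w * (4 * t ^ 5 + 2 * p.2 ^ 2) ≤ -w' * (4 * t ^ 5 + 2 * p.2 ^ 2) :=
      mul_le_mul_of_nonneg_right hw' hz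
    have h2 : w * (2 * t + 1) ≤ w * 3 := mul_le_mul_of_nonneg_left (by linarith) hw0
    by_cases h : rho L p ≤ 1 / 50
    · rw [oχ p h]
      have : 0 ≤ 400 * w * (4 * t ^ 5 + 2 * p.2 ^ 2) := by positivity
      linarith
    · have h3 : 1 / 50 ≤ t ^ 4 + p.2 ^ 2 := by
        rw [← rho_eq hL]; exact le_of_lt (not_le.1 h)
      have h4 := key_poly ht0 h3
      have h5 : 400 * w * (1 / 100) ≤ 400 * w * (4 * t ^ 5 + 2 * p.2 ^ 2) :=
        mul_le_mul_of_nonneg_left h4 (by positivity)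
      linarith [(bχ p).1]
  exact
    { hΩ := isOpen_dom
      hK := isCompact_le hL (by linarith)
      hKΩ := fun p (hp : rho L p ≤ _) => show rho L p < _ by linarith
      hK' := (isClosed_le hc continuous_const).measurableSet
      hK'K := fun p (hp : rho L p ≤ _) => show rho L p ≤ _ by linarith
      cV₁ := cw.mul contDiff_sf1
      cV₂ := cw.mul contDiff_snd
      sV₁ := supp _
      sV₂ := supp _
      bV₁ := fun p => bnd p _ (le_add_of_nonneg_right (mul_self_nonneg _))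
      bV₂ := fun p => bnd p _ (le_add_of_nonneg_left (mul_self_nonneg _))
      cχ := cχ
      sχ := sχ.trans fun p (hp : rho L p ≤ _) => show rho L p ≤ _ by linarith
      sχ' := sχ.trans fun p (hp : rho L p ≤ _) => show rho L p < _ by linarith
      bχ := fun p => abs_le.2 ⟨by linarith [(bχ p).1], (bχ p).2⟩
      hM := hM
      bχ₁ := b₁
      bχ₂ := b₂
      hκ := Real.exp_pos _
      W₀ := fun p hp => (wt_nonneg _ _).trans (main p (le_trans hp (by linarith)))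
      W₁ := fun p hp => (wt_ge hδ hp).trans (main p (le_trans hp (by linarith))) }

/-- The lower bound for the stadium, uniform in the length. -/
theorem lower_bound : ∃ c : ℝ, 0 < c ∧ ∀ L : ℝ, 0 ≤ L → ∃ b : ℝ, ∀ A₁ A₂ : ℝ × ℝ → ℝ,
    MemLp A₁ ⊤ (volume.restrict (dom L 1)) → MemLp A₂ ⊤ (volume.restrict (dom L 1)) →
    (∀ φ, IsTest (dom L 1) φ → ∫ p in dom L 1, (A₁ p * dd (0, 1) φ p - A₂ p * dd (1, 0) φ p) =
      b * ∫ p in dom L (1 / 25), φ p) → ENNReal.ofReal c ≤ lam (dom L 1) A₁ A₂ := by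
  refine ⟨Real.exp (-400) / (8 * (36 / Real.exp (-400) + 1)), by positivity, fun L hL => ?_⟩
  obtain ⟨χ, M, cχ, sχ, bχ, oχ, hM, b₁, b₂⟩ := exists_chi hL
  refine ⟨4 * (M + 1), fun A₁ A₂ hA₁ hA₂ hc => ?_⟩
  refine lam_ge (M := M) (D := dom L (1 / 25)) (Real.exp_pos _) le_rfl
    (K' := fun n : ℕ => {p | rho L p ≤ 1 - 2 * (1 / ((n : ℝ) + 2))}) ?_ ?_ (fun n => ?_) hA₁ hA₂ hc
  · intro m n hmn p hp
    have : (1 : ℝ) / ((n : ℝ) + 2) ≤ 1 / ((m : ℝ) + 2) := by
      have : (m : ℝ) ≤ n := by exact_mod_cast hmn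
      gcongr
    simp only [mem_ofPred_eq] at hp ⊢
    linarith
  · ext p
    simp only [mem_iUnion, mem_ofPred_eq, dom]
    constructor
    · rintro ⟨n, hn⟩
      have : (0 : ℝ) < 1 / ((n : ℝ) + 2) := by positivity
      linarith
    · intro hp
      obtain ⟨n, hn⟩ := exists_nat_one_div_lt (show 0 < (1 - rho L p) / 2 by linarith)
      refine ⟨n, ?_⟩
      have : (1 : ℝ) / ((n : ℝ) + 2) ≤ 1 / ((n : ℝ) + 1) := by gcongr; norm_num
      linarith
  · refine ⟨_, _, _, χ, geom hL cχ sχ bχ oχ hM b₁ b₂ (by positivity) ?_⟩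
    have : (0 : ℝ) ≤ n := Nat.cast_nonneg n
    gcongr
    linarith

end Pool.Agent.Lib.MP_d36e13_an
end
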