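import Pool.Agent.Lib.MP_d36e13_an.Geometry

-- part Pool.Agent.Lib.MP_d36e13_an.Upper
section

open MeasureTheory Set Filter Topology Metric
open scoped ENNReal ContDiff

namespace Pool.Agent.Lib.MP_d36e13_an

theorem weak_of_C1 {Ω : Set (ℝ × ℝ)} {p φ : ℝ × ℝ → ℝ} (hp : ContDiff ℝ 1 p) (hφ : IsTest Ω φ)
    (v : ℝ × ℝ) : ∫ x in Ω, p x * dd v φ x = - ∫ x in Ω, dd v p x * φ x := by
  have c1 : ContDiff ℝ 1 φ := hφ.1.of_le top_one
  have h := integral_dd_eq_zero (v := v) (hp.mul c1) hφ.2.1.mul_left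
  have e : ∀ x, dd v (fun x => p x * φ x) x = dd v p x * φ x + p x * dd v φ x := fun x =>
    dd_mul (hp.differentiable (by simp) x) (c1.differentiable (by simp) x)
  simp only [e] at h
  have i1 : Integrable (fun x => dd v p x * φ x) :=
    ((continuous_dd hp).mul c1.continuous).integrable_of_hasCompactSupport hφ.2.1.mul_left
  have i2 : Integrable (fun x => p x * dd v φ x) :=
    (hp.continuous.mul (continuous_dd c1)).integrable_of_hasCompactSupport
      (hasCompactSupport_dd hφ.2.1).mul_left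
  rw [integral_add i1 i2] at h
  rw [setIntegral_eq_integral_of_forall_compl_eq_zero (fun x hx => by
      rw [dd_eq_zero_of_notMem fun h => hx (hφ.2.2 h), mul_zero]),
    setIntegral_eq_integral_of_forall_compl_eq_zero (fun x hx => by
      rw [image_eq_zero_of_notMem_tsupport (f := φ) fun h => hx (hφ.2.2 h), mul_zero])]
  linarith

theorem integral_cplx {Ω : Set (ℝ × ℝ)} {a b ψ : ℝ × ℝ → ℝ} (ha : Continuous a)
    (hb : Continuous b) (hψ : Continuous ψ) (hc : HasCompactSupport ψ) :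
    ∫ x in Ω, ((a x : ℂ) + (b x : ℂ) * Complex.I) * (ψ x : ℂ) =
      ((∫ x in Ω, a x * ψ x : ℝ) : ℂ) + ((∫ x in Ω, b x * ψ x : ℝ) : ℂ) * Complex.I := by
  have i1 : Integrable (fun x => a x * ψ x) (volume.restrict Ω) :=
    ((ha.mul hψ).integrable_of_hasCompactSupport hc.mul_left).integrableOn
  have i2 : Integrable (fun x => b x * ψ x) (volume.restrict Ω) :=
    ((hb.mul hψ).integrable_of_hasCompactSupport hc.mul_left).integrableOn
  have j1 : Integrable (fun x => ((a x * ψ x : ℝ) : ℂ)) (volume.restrict Ω) := i1.ofReal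
  have j2 : Integrable (fun x => ((b x * ψ x : ℝ) : ℂ)) (volume.restrict Ω) := i2.ofReal
  rw [← integral_complex_ofReal, ← integral_complex_ofReal, ← integral_mul_const,
    ← integral_add j1 (j2.mul_const _)]
  refine integral_congr_ae (Eventually.of_forall fun x => ?_)
  simp only [Complex.ofReal_mul]
  ring

theorem contDiff_of_tsupport {f : ℝ × ℝ → ℝ} (h : ∀ x ∈ tsupport f, ContDiffAt ℝ 1 f x) :
    ContDiff ℝ 1 f := by
  refine contDiff_iff_contDiffAt.2 fun x => ?_
  by_cases hx : x ∈ tsupport f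
  · exact h x hx
  · exact (contDiffAt_const (c := (0 : ℝ))).congr_of_eventuallyEq
      (notMem_tsupport_iff_eventuallyEq.1 hx)

theorem isH1_of_C1 {Ω : Set (ℝ × ℝ)} {p q : ℝ × ℝ → ℝ} (hp : ContDiff ℝ 1 p) (hq : ContDiff ℝ 1 q)
    (sp : HasCompactSupport p) (sq : HasCompactSupport q) :
    IsH1 Ω (fun x => (p x : ℂ) + (q x : ℂ) * Complex.I)
      (fun x => (dd (1, 0) p x : ℂ) + (dd (1, 0) q x : ℂ) * Complex.I)
      (fun x => (dd (0, 1) p x : ℂ) + (dd (0, 1) q x : ℂ) * Complex.I) := by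
  have m : ∀ {a b : ℝ × ℝ → ℝ}, Continuous a → Continuous b → HasCompactSupport a →
      HasCompactSupport b →
      MemLp (fun x => (a x : ℂ) + (b x : ℂ) * Complex.I) 2 (volume.restrict Ω) := by
    intro a b ha hb sa sb
    have h1 : MemLp (fun x => (a x : ℂ)) 2 (volume.restrict Ω) :=
      ((ha.memLp_of_hasCompactSupport (p := 2) (μ := volume) sa).restrict Ω).ofReal
    have h2 : MemLp (fun x => (b x : ℂ)) 2 (volume.restrict Ω) :=
      ((hb.memLp_of_hasCompactSupport (p := 2) (μ := volume) sb).restrict Ω).ofReal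
    exact h1.add (h2.mul_const _)
  have w : ∀ v φ, IsTest Ω φ → ∫ x in Ω, ((p x : ℂ) + (q x : ℂ) * Complex.I) * (dd v φ x : ℂ) =
      - ∫ x in Ω, ((dd v p x : ℂ) + (dd v q x : ℂ) * Complex.I) * (φ x : ℂ) := by
    intro v φ hφ
    have c1 : ContDiff ℝ 1 φ := hφ.1.of_le top_one
    rw [integral_cplx hp.continuous hq.continuous (continuous_dd c1) (hasCompactSupport_dd hφ.2.1),
      integral_cplx (continuous_dd hp) (continuous_dd hq) c1.continuous hφ.2.1,
      weak_of_C1 hp hφ, weak_of_C1 hq hφ]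
    push_cast
    ring
  exact ⟨m hp.continuous hq.continuous sp sq,
    m (continuous_dd hp) (continuous_dd hq) (hasCompactSupport_dd sp) (hasCompactSupport_dd sq),
    m (continuous_dd hp) (continuous_dd hq) (hasCompactSupport_dd sp) (hasCompactSupport_dd sq),
    w (1, 0), w (0, 1)⟩

theorem clm_apply_eq (T : ℝ × ℝ →L[ℝ] ℝ) (v : ℝ × ℝ) : T v = v.1 * T (1, 0) + v.2 * T (0, 1) := by
  have : v = v.1 • ((1 : ℝ), (0 : ℝ)) + v.2 • ((0 : ℝ), (1 : ℝ)) := by ext <;> simp
  conv_lhs => rw [this]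
  rw [map_add, map_smul, map_smul]
  rfl

theorem exists_primitive {U : Set (ℝ × ℝ)} (hU : IsOpen U) (hc : Convex ℝ U) {a₁ a₂ : ℝ × ℝ → ℝ}
    (h₁ : ContDiff ℝ 1 a₁) (h₂ : ContDiff ℝ 1 a₂) (h : ∀ x ∈ U, dd (0, 1) a₁ x = dd (1, 0) a₂ x) :
    ∃ θ : ℝ × ℝ → ℝ, ∀ x ∈ U, ContDiffAt ℝ 1 θ x ∧ dd (1, 0) θ x = a₁ x ∧ dd (0, 1) θ x = a₂ x := by
  let w : ℝ × ℝ → (ℝ × ℝ →L[ℝ] ℝ) := fun x =>
    a₁ x • ContinuousLinearMap.fst ℝ ℝ ℝ + a₂ x • ContinuousLinearMap.snd ℝ ℝ ℝ
  have cw : ContDiff ℝ 1 w := (h₁.smul contDiff_const).add (h₂.smul contDiff_const)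
  obtain ⟨θ, hθ⟩ := hc.exists_forall_hasFDerivAt_of_fderiv_symmetric hU
    (cw.differentiable (by simp)).differentiableOn (fun a ha x y => by
      have d := ((h₁.differentiable (by simp) a).hasFDerivAt.smul_const
        (ContinuousLinearMap.fst ℝ ℝ ℝ)).add ((h₂.differentiable (by simp) a).hasFDerivAt.smul_const
        (ContinuousLinearMap.snd ℝ ℝ ℝ))
      have e : fderiv ℝ w a = _ := d.fderiv
      rw [e]
      have := h a ha
      unfold dd at this
      simp only [add_apply, ContinuousLinearMap.smulRight_apply, smul_apply, smul_eq_mul,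
        ContinuousLinearMap.coe_fst', ContinuousLinearMap.coe_snd']
      rw [clm_apply_eq (fderiv ℝ a₁ a) x, clm_apply_eq (fderiv ℝ a₂ a) x,
        clm_apply_eq (fderiv ℝ a₁ a) y, clm_apply_eq (fderiv ℝ a₂ a) y, this]
      ring)
  refine ⟨θ, fun x hx => ⟨?_, ?_, ?_⟩⟩
  · exact contDiffAt_one_iff.2 ⟨w, U, hU.mem_nhds hx, cw.continuous.continuousOn, hθ⟩
  · rw [dd_of_hasFDerivAt (hθ x hx)]; simp [w]
  · rw [dd_of_hasFDerivAt (hθ x hx)]; simp [w]

theorem vol_closedBall (z : ℝ × ℝ) {t : ℝ} (ht : 0 ≤ t) :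
    (volume : Measure (ℝ × ℝ)).real (closedBall z t) = (2 * t) ^ 2 := by
  rw [← closedBall_prod_same, Measure.volume_eq_prod, measureReal_prod_prod,
    Real.volume_real_closedBall ht, Real.volume_real_closedBall ht]
  ring

theorem isOpen_disc (R : ℝ) : IsOpen (disc R) := isOpen_lt (by fun_prop) (by fun_prop)

theorem isBounded_disc (R : ℝ) : Bornology.IsBounded (disc R) := by
  refine (isBounded_closedBall (x := (0 : ℝ × ℝ)) (r := |R|)).subset fun p hp => ?_
  have hp : p.1 ^ 2 + p.2 ^ 2 < R ^ 2 := hp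
  rw [mem_closedBall_zero_iff, Prod.norm_def, max_le_iff, Real.norm_eq_abs, Real.norm_eq_abs]
  exact ⟨sq_le_sq.1 (by nlinarith [sq_nonneg p.2]), sq_le_sq.1 (by nlinarith [sq_nonneg p.1])⟩

/-- the profile of the trial function -/
noncomputable def prof (r : ℝ) (p : ℝ × ℝ) : ℝ :=
  P (r ^ 2 - ((p.1 - 7 * r) * (p.1 - 7 * r) + p.2 * p.2))

theorem contDiff_prof (r : ℝ) : ContDiff ℝ 1 (prof r) := by
  unfold prof
  exact contDiff_P.comp (by fun_prop)

theorem dd_prof (r : ℝ) (v p : ℝ × ℝ) : dd v (prof r) p =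
    2 * max (r ^ 2 - ((p.1 - 7 * r) * (p.1 - 7 * r) + p.2 * p.2)) 0 *
      -(2 * (p.1 - 7 * r) * v.1 + 2 * p.2 * v.2) := by
  have d1 : DifferentiableAt ℝ (fun p : ℝ × ℝ => p.1 - 7 * r) p := by fun_prop
  have d2 : DifferentiableAt ℝ (fun p : ℝ × ℝ => p.2) p := by fun_prop
  have e : prof r = fun p => P ((fun p : ℝ × ℝ =>
    r ^ 2 - ((p.1 - 7 * r) * (p.1 - 7 * r) + p.2 * p.2)) p) := rfl
  rw [e, dd_comp (hasDerivAt_P _) (by fun_prop), dd_sub (by fun_prop) (by fun_prop),
    dd_add (d1.fun_mul d1) (d2.fun_mul d2), dd_mul d1 d1, dd_mul d2 d2,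
    dd_sub differentiableAt_fst (differentiableAt_const _), dd_fst, dd_snd,
    dd_of_hasFDerivAt (hasFDerivAt_const _ _), dd_of_hasFDerivAt (hasFDerivAt_const _ _)]
  simp only [zero_apply]
  ring

theorem mem_closedBall_iff' {z p : ℝ × ℝ} {t : ℝ} :
    p ∈ closedBall z t ↔ |p.1 - z.1| ≤ t ∧ |p.2 - z.2| ≤ t := by
  rw [mem_closedBall, Prod.dist_eq, max_le_iff, Real.dist_eq, Real.dist_eq]

theorem mem_ball_iff' {z p : ℝ × ℝ} {t : ℝ} :
    p ∈ ball z t ↔ |p.1 - z.1| < t ∧ |p.2 - z.2| < t := by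
  rw [mem_ball, Prod.dist_eq, max_lt_iff, Real.dist_eq, Real.dist_eq]

theorem tsupport_prof {r : ℝ} (hr : 0 < r) : tsupport (prof r) ⊆ closedBall (7 * r, 0) r := by
  refine closure_minimal (fun p hp => ?_) isClosed_closedBall
  have h : 0 < r ^ 2 - ((p.1 - 7 * r) * (p.1 - 7 * r) + p.2 * p.2) := by
    by_contra h
    apply hp
    simp [prof, P, max_eq_right (not_lt.1 h)]
  rw [mem_closedBall_iff']
  simp only [sub_zero]
  exact ⟨abs_le_of_sq_le_sq (by nlinarith [mul_self_nonneg p.2]) hr.le,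
    abs_le_of_sq_le_sq (by nlinarith [mul_self_nonneg (p.1 - 7 * r)]) hr.le⟩

theorem prof_bounds {r : ℝ} (p : ℝ × ℝ) : prof r p ^ 2 ≤ r ^ 8 ∧
    dd (1, 0) (prof r) p ^ 2 ≤ 16 * r ^ 6 ∧ dd (0, 1) (prof r) p ^ 2 ≤ 16 * r ^ 6 := by
  rw [dd_prof, dd_prof]
  unfold prof P
  simp only [mul_one, mul_zero, add_zero, zero_add]
  set a := p.1 - 7 * r
  set y := p.2
  have ha := mul_self_nonneg a
  have hy := mul_self_nonneg y
  rcases le_total (r ^ 2 - (a * a + y * y)) 0 with h | h
  · rw [max_eq_right h]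
    refine ⟨by simp; positivity, by simp; positivity, by simp; positivity⟩
  · rw [max_eq_left h]
    set g := r ^ 2 - (a * a + y * y) with hg
    have g1 : g ≤ r ^ 2 := by linarith
    have g2 : g ^ 2 ≤ (r ^ 2) ^ 2 := pow_le_pow_left₀ h g1 2
    have g3 : (g ^ 2) ^ 2 ≤ ((r ^ 2) ^ 2) ^ 2 := pow_le_pow_left₀ (sq_nonneg _) g2 2
    have g4 : g ^ 2 * (a * a) ≤ (r ^ 2) ^ 2 * r ^ 2 :=
      mul_le_mul g2 (by linarith) ha (sq_nonneg _)
    have g5 : g ^ 2 * (y * y) ≤ (r ^ 2) ^ 2 * r ^ 2 :=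
      mul_le_mul g2 (by linarith) hy (sq_nonneg _)
    refine ⟨by linarith, by linarith, by linarith⟩

theorem prof_lower {r : ℝ} {p : ℝ × ℝ} (hp : p ∈ closedBall (7 * r, (0 : ℝ)) (r / 2)) :
    r ^ 8 / 16 ≤ prof r p ^ 2 := by
  rw [mem_closedBall_iff'] at hp
  simp only [sub_zero] at hp
  have h1 : (p.1 - 7 * r) ^ 2 ≤ (r / 2) ^ 2 := by
    rw [← sq_abs]; exact pow_le_pow_left₀ (abs_nonneg _) hp.1 2
  have h2 : p.2 ^ 2 ≤ (r / 2) ^ 2 := by
    rw [← sq_abs]; exact pow_le_pow_left₀ (abs_nonneg _) hp.2 2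
  have h3 : r ^ 2 / 2 ≤ max (r ^ 2 - ((p.1 - 7 * r) * (p.1 - 7 * r) + p.2 * p.2)) 0 :=
    le_trans (by nlinarith) (le_max_left _ _)
  have h4 := pow_le_pow_left₀ (by positivity) h3 4
  unfold prof P
  nlinarith

theorem upper_bound {r R₀ : ℝ} (hr : 0 < r) (hR₀ : 0 < R₀) (hR : R₀ ≤ 5 * r) {b : ℝ}
    {B₁ B₂ : ℝ × ℝ → ℝ} (hB₁ : MemLp B₁ ⊤ (volume.restrict (disc (10 * r))))
    (hB₂ : MemLp B₂ ⊤ (volume.restrict (disc (10 * r))))
    (hc : ∀ φ, IsTest (disc (10 * r)) φ →
      ∫ p in disc (10 * r), (B₁ p * dd (0, 1) φ p - B₂ p * dd (1, 0) φ p) =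
        b * ∫ p in disc R₀, φ p) :
    lam (disc (10 * r)) B₁ B₂ ≤ ENNReal.ofReal (4640 / r ^ 2) := by
  set Ω := disc (10 * r) with hΩ
  have hΩm : MeasurableSet Ω := (isOpen_disc _).measurableSet
  have : IsFiniteMeasure (volume.restrict Ω) :=
    isFiniteMeasure_restrict.2 (isBounded_disc _).measure_lt_top.ne
  set z : ℝ × ℝ := (7 * r, 0) with hz
  have hUΩ : ball z (2 * r) ⊆ Ω := by
    intro p hp
    rw [mem_ball_iff'] at hp
    simp only [hz, sub_zero] at hp
    obtain ⟨h1, h2⟩ := hp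
    rw [abs_lt] at h1 h2
    change p.1 ^ 2 + p.2 ^ 2 < (10 * r) ^ 2
    nlinarith
  set K := closedBall z (3 * r / 2) with hK
  have hKc : IsCompact K := isCompact_closedBall _ _
  have hKU : K ⊆ ball z (2 * r) := closedBall_subset_ball (by linarith)
  have hKΩ := hKU.trans hUΩ
  have hB₁2 : MemLp B₁ 2 (volume.restrict Ω) := hB₁.mono_exponent le_top
  have hB₂2 : MemLp B₂ 2 (volume.restrict Ω) := hB₂.mono_exponent le_top
  obtain ⟨a₁, a₂, c₁, c₂, hsym, e₁, e₂⟩ := curlfree_approx hΩm isOpen_ball hUΩ hKc hKU hB₁2 hB₂2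
    (fun φ hφ => by
      rw [hc φ ⟨hφ.1, hφ.2.1, hφ.2.2.trans hUΩ⟩, setIntegral_eq_zero_of_forall_eq_zero, mul_zero]
      intro p hp
      refine image_eq_zero_of_notMem_tsupport fun h => ?_
      have h1 := hφ.2.2 h
      rw [mem_ball_iff'] at h1
      have h2 := (abs_lt.1 h1.1).1
      simp only [hz] at h2
      have hp : p.1 ^ 2 + p.2 ^ 2 < R₀ ^ 2 := hp
      nlinarith [sq_nonneg p.2]) one_pos
  obtain ⟨θ, hθ⟩ := exists_primitive (U := ball z (3 * r / 2)) isOpen_ball (convex_ball _ _)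
    (c₁.of_le top_one) (c₂.of_le top_one) (fun x hx => hsym x (ball_subset_closedBall hx))
  set f := prof r with hf
  have cf : ContDiff ℝ 1 f := contDiff_prof r
  have sf : tsupport f ⊆ ball z (3 * r / 2) :=
    (tsupport_prof hr).trans (closedBall_subset_ball (by linarith))
  have sfK : tsupport f ⊆ K := sf.trans ball_subset_closedBall
  have hfc : HasCompactSupport f := hKc.of_isClosed_subset (isClosed_tsupport _) sfK
  let p : ℝ × ℝ → ℝ := fun x => f x * Real.cos (θ x)
  let q : ℝ × ℝ → ℝ := fun x => f x * Real.sin (θ x)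
  have sp : tsupport p ⊆ tsupport f := tsupport_mul_subset_left
  have sq : tsupport q ⊆ tsupport f := tsupport_mul_subset_left
  have cp : ContDiff ℝ 1 p := contDiff_of_tsupport fun x hx =>
    cf.contDiffAt.mul (hθ x (sf (sp hx))).1.cos
  have cq : ContDiff ℝ 1 q := contDiff_of_tsupport fun x hx =>
    cf.contDiffAt.mul (hθ x (sf (sq hx))).1.sin
  have H := isH1_of_C1 (Ω := Ω) cp cq hfc.mul_right hfc.mul_right
  obtain ⟨E1, E2⟩ := energy_eq H hB₁ hB₂
  simp only [Complex.add_re, Complex.ofReal_re, Complex.mul_re, Complex.I_re, mul_zero,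
    Complex.ofReal_im, Complex.I_im, mul_one, sub_self, add_zero, Complex.add_im, Complex.mul_im,
    zero_add] at E1 E2
  have mc : ∀ {g : ℝ × ℝ → ℝ}, Continuous g → HasCompactSupport g → MemLp g 2 (volume.restrict Ω) :=
    fun hg hs => (hg.memLp_of_hasCompactSupport (p := 2) (μ := volume) hs).restrict Ω
  have mp := mc cp.continuous hfc.mul_right
  have mq := mc cq.continuous hfc.mul_right
  -- the energy in one direction
  have dir : ∀ (v : ℝ × ℝ) (a B : ℝ × ℝ → ℝ), Continuous a → MemLp B ⊤ (volume.restrict Ω) →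
      (∀ x ∈ ball z (3 * r / 2), dd v θ x = a x) → (∀ x, dd v f x ^ 2 ≤ 16 * r ^ 6) →
      ∫ x in K, (a x - B x) ^ 2 ≤ 1 →
      Q Ω (fun x => dd v q x - B x * p x) + Q Ω (fun x => dd v p x + B x * q x) ≤ 145 * r ^ 8 := by
    intro v a B ca mB ha hb he
    have mX : MemLp (fun x => dd v q x - B x * p x) 2 (volume.restrict Ω) :=
      (mc (continuous_dd cq) (hasCompactSupport_dd hfc.mul_right)).sub (memLp_mul_top mB mp)
    have mY : MemLp (fun x => dd v p x + B x * q x) 2 (volume.restrict Ω) :=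
      (mc (continuous_dd cp) (hasCompactSupport_dd hfc.mul_right)).add (memLp_mul_top mB mq)
    have mD : MemLp (fun x => a x - B x) 2 (volume.restrict K) :=
      (memLp_on_compact hKc ca 2).sub (memLp_sub hKΩ (mB.mono_exponent le_top))
    have iC : Integrable (fun _ : ℝ × ℝ => 16 * r ^ 6) (volume.restrict K) :=
      continuous_const.continuousOn.integrableOn_compact hKc
    have iS : Integrable (fun x => (dd v q x - B x * p x) ^ 2 + (dd v p x + B x * q x) ^ 2)
      (volume.restrict Ω) := mX.integrable_sq.add mY.integrable_sq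
    have zero : ∀ x, x ∉ tsupport f →
        (dd v q x - B x * p x) ^ 2 + (dd v p x + B x * q x) ^ 2 = 0 := by
      intro x hx
      rw [dd_eq_zero_of_notMem fun h => hx (sp h), dd_eq_zero_of_notMem fun h => hx (sq h),
        image_eq_zero_of_notMem_tsupport (f := p) fun h => hx (sp h),
        image_eq_zero_of_notMem_tsupport (f := q) fun h => hx (sq h)]
      ring
    unfold Q
    rw [← integral_add mX.integrable_sq mY.integrable_sq,
      setIntegral_eq_of_subset_of_forall_sdiff_eq_zero hΩm hKΩ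
        (fun x hx => zero x fun h => hx.2 (sfK h))]
    calc ∫ x in K, ((dd v q x - B x * p x) ^ 2 + (dd v p x + B x * q x) ^ 2)
        ≤ ∫ x in K, (16 * r ^ 6 + r ^ 8 * (a x - B x) ^ 2) := by
          refine integral_mono (iS.mono_measure (Measure.restrict_mono hKΩ le_rfl))
            (iC.add (mD.integrable_sq.const_mul _)) fun x => ?_
          by_cases hx : x ∈ tsupport f
          · have dθ : DifferentiableAt ℝ θ x := (hθ x (sf hx)).1.differentiableAt (by simp)
            have df : DifferentiableAt ℝ f x := cf.differentiable (by simp) x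
            have ep : dd v p x = dd v f x * Real.cos (θ x) + f x * (-Real.sin (θ x) * a x) := by
              simp only [p]
              rw [dd_mul df dθ.cos, dd_comp (Real.hasDerivAt_cos _) dθ, ha x (sf hx)]
            have eq : dd v q x = dd v f x * Real.sin (θ x) + f x * (Real.cos (θ x) * a x) := by
              simp only [q]
              rw [dd_mul df dθ.sin, dd_comp (Real.hasDerivAt_sin _) dθ, ha x (sf hx)]
            have e : (dd v q x - B x * p x) ^ 2 + (dd v p x + B x * q x) ^ 2 =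
                dd v f x ^ 2 + f x ^ 2 * (a x - B x) ^ 2 := by
              rw [ep, eq]
              simp only [p, q]
              linear_combination (dd v f x ^ 2 + f x ^ 2 * (a x - B x) ^ 2) *
                Real.sin_sq_add_cos_sq (θ x)
            simp only
            rw [e]
            have := mul_le_mul_of_nonneg_right (prof_bounds (r := r) x).1 (sq_nonneg (a x - B x))
            linarith [hb x]
          · simp only
            rw [zero x hx]
            positivity
      _ = 16 * r ^ 6 * (2 * (3 * r / 2)) ^ 2 + r ^ 8 * ∫ x in K, (a x - B x) ^ 2 := by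
          rw [integral_add iC (mD.integrable_sq.const_mul _), integral_const_mul (r ^ 8),
            setIntegral_const, vol_closedBall z (by positivity), smul_eq_mul]
          ring
      _ ≤ 145 * r ^ 8 := by
          have := mul_le_mul_of_nonneg_left he (show 0 ≤ r ^ 8 by positivity)
          linarith
  have D1 := dir (1, 0) a₁ B₁ c₁.continuous hB₁ (fun x hx => (hθ x hx).2.1)
    (fun x => (prof_bounds x).2.1) e₁
  have D2 := dir (0, 1) a₂ B₂ c₂.continuous hB₂ (fun x hx => (hθ x hx).2.2)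
    (fun x => (prof_bounds x).2.2) e₂
  have hN : r ^ 10 / 16 ≤ Q Ω p + Q Ω q := by
    have hS : closedBall z (r / 2) ⊆ Ω := (closedBall_subset_closedBall (by linarith)).trans hKΩ
    have k1 := Q_mono hS mp
    have k2 := Q_mono hS mq
    refine le_trans ?_ (add_le_add k1 k2)
    unfold Q
    have i1 := (memLp_sub hS mp).integrable_sq
    have i2 := (memLp_sub hS mq).integrable_sq
    rw [← integral_add i1 i2]
    calc r ^ 10 / 16 = ∫ _ in closedBall z (r / 2), r ^ 8 / 16 := by
          rw [setIntegral_const, vol_closedBall z (by positivity), smul_eq_mul]; ring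
      _ ≤ _ := by
          refine setIntegral_mono_on
            (continuous_const.continuousOn.integrableOn_compact (isCompact_closedBall _ _))
            (i1.add i2) measurableSet_closedBall fun x hx => ?_
          have := prof_lower hx
          have e : p x ^ 2 + q x ^ 2 = f x ^ 2 := by
            simp only [p, q]
            linear_combination (f x ^ 2) * Real.sin_sq_add_cos_sq (θ x)
          rw [e]
          exact this
  have hN0 : 0 < Q Ω p + Q Ω q := lt_of_lt_of_le (by positivity) hN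
  unfold lam
  refine iInf_le_of_le _ (iInf_le_of_le _ (iInf_le_of_le _ (iInf_le_of_le H (iInf_le_of_le ?_ ?_))))
  · rw [E2]
    exact (ENNReal.ofReal_pos.2 hN0).ne'
  · rw [E1, E2, ← ENNReal.ofReal_div_of_pos hN0]
    apply ENNReal.ofReal_le_ofReal
    rw [div_le_div_iff₀ hN0 (by positivity)]
    have : r ^ 10 = r ^ 8 * r ^ 2 := by ring
    nlinarith [mul_le_mul_of_nonneg_right (add_le_add D1 D2) (sq_nonneg r)]

end Pool.Agent.Lib.MP_d36e13_an
end

-- part Pool.Agent.Lib.MP_d36e13_an.Potential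
section

open MeasureTheory Set Filter Topology Metric
open scoped ENNReal ContDiff

namespace Pool.Agent.Lib.MP_d36e13_an

noncomputable def clamp (h y : ℝ) : ℝ := max (-h) (min y h)

theorem continuous_clamp : Continuous (fun q : ℝ × ℝ => clamp q.1 q.2) := by
  unfold clamp; fun_prop

theorem hasDerivAt_clamp {h y : ℝ} (hh : 0 ≤ h) (h1 : y ≠ -h) (h2 : y ≠ h) :
    HasDerivAt (clamp h) ((Ioo (-h) h).indicator (fun _ => (1 : ℝ)) y) y := by
  rcases lt_or_gt_of_ne h1 with a | a
  · have : clamp h =ᶠ[𝓝 y] fun _ => -h := by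
      filter_upwards [Iio_mem_nhds a] with s hs
      have hs : s < -h := hs
      unfold clamp
      rw [min_eq_left (by linarith), max_eq_left hs.le]
    rw [indicator_of_notMem (fun hy => by linarith [hy.1])]
    exact (hasDerivAt_const y (-h)).congr_of_eventuallyEq this
  rcases lt_or_gt_of_ne h2 with b | b
  · have : clamp h =ᶠ[𝓝 y] fun s => s := by
      filter_upwards [Ioo_mem_nhds a b] with s hs
      unfold clamp
      rw [min_eq_left hs.2.le, max_eq_right hs.1.le]
    rw [indicator_of_mem (show y ∈ Ioo (-h) h from ⟨a, b⟩)]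
    exact (hasDerivAt_id y).congr_of_eventuallyEq this
  · have : clamp h =ᶠ[𝓝 y] fun _ => h := by
      filter_upwards [Ioi_mem_nhds b] with s hs
      have hs : h < s := hs
      unfold clamp
      rw [min_eq_right hs.le, max_eq_right (by linarith)]
    rw [indicator_of_notMem (fun hy => by linarith [hy.2])]
    exact (hasDerivAt_const y h).congr_of_eventuallyEq this

theorem clamp_ibp {h : ℝ} (hh : 0 ≤ h) {ψ ψ' : ℝ → ℝ} (hd : ∀ y, HasDerivAt ψ (ψ' y) y)
    (hc' : Continuous ψ') {R : ℝ} (hR : ∀ y, R ≤ |y| → ψ y = 0 ∧ ψ' y = 0) :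
    ∫ y, clamp h y * ψ' y = - ∫ y, (Ioo (-h) h).indicator ψ y := by
  have hc : Continuous ψ := continuous_iff_continuousAt.2 fun y => (hd y).continuousAt
  have cc : Continuous (clamp h) := by unfold clamp; fun_prop
  have s1 : HasCompactSupport ψ := HasCompactSupport.intro (isCompact_Icc (a := -R) (b := R))
    fun y hy => (hR y (by
      by_contra h'
      exact hy (abs_le.1 (le_of_lt (not_le.1 h'))))).1
  have s2 : HasCompactSupport ψ' := HasCompactSupport.intro (isCompact_Icc (a := -R) (b := R))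
    fun y hy => (hR y (by
      by_contra h'
      exact hy (abs_le.1 (le_of_lt (not_le.1 h'))))).2
  have i1 : Integrable (fun y => clamp h y * ψ' y) :=
    (cc.mul hc').integrable_of_hasCompactSupport s2.mul_left
  have i2 : Integrable ((Ioo (-h) h).indicator ψ) :=
    (hc.integrable_of_hasCompactSupport s1).indicator measurableSet_Ioo
  have i3 : Integrable (fun y => (Ioo (-h) h).indicator ψ y + clamp h y * ψ' y) := i2.add i1
  have key := integral_eq_of_hasDerivAt_off_countable (fun y => clamp h y * ψ y)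
    (fun y => (Ioo (-h) h).indicator ψ y + clamp h y * ψ' y) (a := -R) (b := R)
    (s := {-h, h}) (by simp) (cc.mul hc).continuousOn (fun y hy => by
      have h1 : y ≠ -h := fun e => hy.2 (by simp [e])
      have h2 : y ≠ h := fun e => hy.2 (by simp [e])
      have := (hasDerivAt_clamp hh h1 h2).mul (hd y)
      have e : (Ioo (-h) h).indicator ψ y = (Ioo (-h) h).indicator (fun _ => (1 : ℝ)) y * ψ y := by
        by_cases hy : y ∈ Ioo (-h) h <;> simp [hy]
      rw [e]
      exact this) i3.intervalIntegrable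
  rw [intervalIntegral.integral_eq_integral_of_support_subset (fun y hy => by
    by_contra h'
    have : R ≤ |y| := by
      by_contra h''
      exact h' ⟨(abs_lt.1 (not_le.1 h'')).1, (abs_lt.1 (not_le.1 h'')).2.le⟩
    apply hy
    simp [indicator, (hR y this).1, (hR y this).2]), integral_add i2 i1,
    (hR R (le_abs_self R)).1, (hR (-R) (by rw [abs_neg]; exact le_abs_self R)).1] at key
  linarith

theorem exists_potential {Ω : Set (ℝ × ℝ)} (hΩ : Bornology.IsBounded Ω) {k : ℝ → ℝ}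
    (hk : Continuous k) (b : ℝ) : ∃ A₁ A₂ : ℝ × ℝ → ℝ, MemLp A₁ ⊤ (volume.restrict Ω) ∧
      MemLp A₂ ⊤ (volume.restrict Ω) ∧ ∀ φ, IsTest Ω φ →
        ∫ p in Ω, (A₁ p * dd (0, 1) φ p - A₂ p * dd (1, 0) φ p) =
          b * ∫ p in {p : ℝ × ℝ | p.2 ^ 2 < k p.1}, φ p := by
  have cA : Continuous (fun p : ℝ × ℝ => clamp (Real.sqrt (k p.1)) p.2) :=
    continuous_clamp.comp (f := fun p : ℝ × ℝ => (Real.sqrt (k p.1), p.2)) (by fun_prop)
  refine ⟨fun p => -b * clamp (Real.sqrt (k p.1)) p.2, fun _ => 0, ?_, MemLp.zero', fun φ hφ => ?_⟩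
  · exact memLp_sub subset_closure
      (memLp_on_compact hΩ.isCompact_closure (continuous_const.mul cA) ⊤)
  have c1 : ContDiff ℝ 1 φ := hφ.1.of_le top_one
  have hD : MeasurableSet {p : ℝ × ℝ | p.2 ^ 2 < k p.1} :=
    (isOpen_lt (by fun_prop) (by fun_prop)).measurableSet
  simp only [zero_mul, sub_zero]
  rw [setIntegral_eq_integral_of_forall_compl_eq_zero (fun x hx => by
    rw [dd_eq_zero_of_notMem fun h => hx (hφ.2.2 h), mul_zero]), ← integral_indicator hD]
  have i1 : Integrable (fun p : ℝ × ℝ => -b * clamp (Real.sqrt (k p.1)) p.2 * dd (0, 1) φ p)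
      ((volume : Measure ℝ).prod volume) :=
    ((continuous_const.mul cA).mul (continuous_dd c1)).integrable_of_hasCompactSupport
      (hasCompactSupport_dd hφ.2.1).mul_left
  have i2 : Integrable ({p : ℝ × ℝ | p.2 ^ 2 < k p.1}.indicator φ)
      ((volume : Measure ℝ).prod volume) :=
    (c1.continuous.integrable_of_hasCompactSupport hφ.2.1).indicator hD
  obtain ⟨R, hR⟩ := hφ.2.1.isBounded.subset_closedBall 0
  rw [Measure.volume_eq_prod, integral_prod _ i1, integral_prod _ i2, ← integral_const_mul]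
  refine integral_congr_ae (Eventually.of_forall fun x => ?_)
  have hd : ∀ y, HasDerivAt (fun y => φ (x, y)) (dd (0, 1) φ (x, y)) y := by
    intro y
    have h1 := (c1.differentiable (by simp) (x, y)).hasFDerivAt
    have h2 : HasDerivAt (fun y : ℝ => (x, y)) ((0 : ℝ), (1 : ℝ)) y :=
      (hasDerivAt_const y x).prodMk (hasDerivAt_id y)
    exact h1.comp_hasDerivAt y h2
  have hc' : Continuous (fun y => dd (0, 1) φ (x, y)) := (continuous_dd c1).comp (by fun_prop)
  have := clamp_ibp (Real.sqrt_nonneg (k x)) hd hc' (R := |R| + 1) (fun y hy => by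
    have : (x, y) ∉ tsupport φ := fun h => by
      have h1 := hR h
      rw [mem_closedBall_zero_iff] at h1
      have h2 : ‖y‖ ≤ ‖(x, y)‖ := norm_snd_le (x, y)
      rw [Real.norm_eq_abs] at h2
      linarith [le_abs_self R]
    exact ⟨image_eq_zero_of_notMem_tsupport this, dd_eq_zero_of_notMem this⟩)
  simp only [mul_assoc]
  rw [integral_const_mul, this]
  simp only [neg_mul, mul_neg, neg_neg]
  congr 1
  refine integral_congr_ae (Eventually.of_forall fun y => ?_)
  have : y ∈ Ioo (-Real.sqrt (k x)) (Real.sqrt (k x)) ↔ (x, y) ∈ {p : ℝ × ℝ | p.2 ^ 2 < k p.1} := by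
    simp only [mem_Ioo, mem_ofPred_eq]
    rw [← abs_lt, Real.lt_sqrt (abs_nonneg y), sq_abs]
  by_cases hy : y ∈ Ioo (-Real.sqrt (k x)) (Real.sqrt (k x))
  · simp only [indicator_of_mem hy, indicator_of_mem (this.1 hy)]
  · simp only [indicator_of_notMem hy, indicator_of_notMem (fun h => hy (this.2 h))]

end Pool.Agent.Lib.MP_d36e13_an
end
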